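import Mathlib

/-!
# Components of induced subgraphs, described by closed sets of vertices (MP_e3976a_co)
-/

set_option autoImplicit false

namespace Pool.Agent.LPR

open Finset

set_option linter.unusedSectionVars false

variable {V : Type} [Fintype V] [DecidableEq V] (G : SimpleGraph V)

/-- `A` is a union of components of `G[D]`. -/
def Cl (D A : Finset V) : Prop := A ⊆ D ∧ ∀ a ∈ A, ∀ b ∈ D, G.Adj a b → b ∈ A

/-- `C` is a component of `G[D]`. -/
def IsC (D C : Finset V) : Prop :=
  Cl G D C ∧ C.Nonempty ∧ ∀ A, A ⊆ C → Cl G D A → A.Nonempty → A = C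

/-- `y` has a neighbour in `C`. -/
def Ad (C : Finset V) (y : V) : Prop := ∃ z ∈ C, G.Adj z y

open Classical in
/-- The components of `G[D]`. -/
noncomputable def comps (D : Finset V) : Finset (Finset V) := univ.filter (fun C => IsC G D C)

variable {G}

theorem mem_comps {D C : Finset V} : C ∈ comps G D ↔ IsC G D C := by
  simp [comps]

theorem Cl.compl {D A : Finset V} (h : Cl G D A) : Cl G D (D \ A) := by
  refine ⟨sdiff_subset, fun a ha b hb hab => ?_⟩
  rw [mem_sdiff] at ha ⊢
  exact ⟨hb, fun hbA => ha.2 (h.2 b hbA a ha.1 hab.symm)⟩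

theorem Cl.inter {D A B : Finset V} (h : Cl G D A) (h' : Cl G D B) : Cl G D (A ∩ B) := by
  refine ⟨inter_subset_left.trans h.1, fun a ha b hb hab => ?_⟩
  rw [mem_inter] at ha ⊢
  exact ⟨h.2 a ha.1 b hb hab, h'.2 a ha.2 b hb hab⟩

theorem IsC.eq_of_mem {D C C' : Finset V} (h : IsC G D C) (h' : IsC G D C') {x : V} (hx : x ∈ C)
    (hx' : x ∈ C') : C = C' := by
  have hne : (C ∩ C').Nonempty := ⟨x, mem_inter.mpr ⟨hx, hx'⟩⟩
  have h1 := h.2.2 _ inter_subset_left (h.1.inter h'.1) hne
  have h2 := h'.2.2 _ inter_subset_right (h.1.inter h'.1) hne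
  rw [← h1, h2]

theorem exists_comp {D : Finset V} {x : V} (hx : x ∈ D) : ∃ C, IsC G D C ∧ x ∈ C := by
  classical
  refine ⟨D.filter (fun y => ∀ A, Cl G D A → x ∈ A → y ∈ A), ⟨⟨filter_subset _ _, ?_⟩, ?_, ?_⟩, ?_⟩
  · intro a ha b hb hab
    rw [mem_filter] at ha ⊢
    exact ⟨hb, fun A hA hxA => hA.2 a (ha.2 A hA hxA) b hb hab⟩
  · exact ⟨x, mem_filter.mpr ⟨hx, fun A _ h => h⟩⟩
  · intro A hA hcl hne
    by_cases hxA : x ∈ A
    · refine Subset.antisymm hA fun y hy => ?_
      exact (mem_filter.mp hy).2 A hcl hxA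
    · exfalso
      obtain ⟨a, ha⟩ := hne
      have h1 := (mem_filter.mp (hA ha)).2 (D \ A) hcl.compl (mem_sdiff.mpr ⟨hx, hxA⟩)
      exact (mem_sdiff.mp h1).2 ha
  · exact mem_filter.mpr ⟨hx, fun A _ h => h⟩

theorem IsC.insert_of_not_ad {D C : Finset V} {y : V} (h : IsC G D C) (hn : ¬ Ad G C y) :
    IsC G (insert y D) C := by
  refine ⟨⟨h.1.1.trans (subset_insert _ _), fun a ha b hb hab => ?_⟩, h.2.1, fun A hA hcl hne => ?_⟩
  · rcases mem_insert.mp hb with rfl | hb
    · exact absurd ⟨a, ha, hab⟩ hn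
    · exact h.1.2 a ha b hb hab
  · refine h.2.2 A hA ⟨hA.trans h.1.1, fun a ha b hb hab => ?_⟩ hne
    exact hcl.2 a ha b (mem_insert_of_mem hb) hab

theorem IsC.of_insert {D C : Finset V} {y : V} (h : IsC G (insert y D) C) (hy : y ∉ C) :
    IsC G D C ∧ ¬ Ad G C y := by
  have hnad : ¬ Ad G C y := by
    rintro ⟨z, hz, hzy⟩
    exact hy (h.1.2 z hz y (mem_insert_self _ _) hzy)
  have hsub : C ⊆ D := by
    intro z hz
    rcases mem_insert.mp (h.1.1 hz) with rfl | h1
    · exact absurd hz hy
    · exact h1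
  refine ⟨⟨⟨hsub, fun a ha b hb hab => h.1.2 a ha b (mem_insert_of_mem hb) hab⟩, h.2.1, ?_⟩, hnad⟩
  intro A hA hcl hne
  refine h.2.2 A hA ⟨(hA.trans hsub).trans (subset_insert _ _), fun a ha b hb hab => ?_⟩ hne
  rcases mem_insert.mp hb with rfl | hb
  · exact absurd ⟨a, hA ha, hab⟩ hnad
  · exact hcl.2 a ha b hb hab

theorem IsC.insert_attach {D C : Finset V} {x : V} (h : IsC G D C) (hx : x ∉ D) (had : Ad G C x)
    (honly : ∀ z ∈ D, G.Adj z x → z ∈ C) : IsC G (insert x D) (insert x C) := by
  refine ⟨⟨insert_subset_insert _ h.1.1, fun a ha b hb hab => ?_⟩, ⟨x, mem_insert_self _ _⟩,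
    fun A hA hcl hne => ?_⟩
  · rcases mem_insert.mp hb with h1 | h1
    · rw [h1]
      exact mem_insert_self _ _
    · rcases mem_insert.mp ha with h2 | h2
      · rw [h2] at hab
        exact mem_insert_of_mem (honly b h1 hab.symm)
      · exact mem_insert_of_mem (h.1.2 a h2 b h1 hab)
  · have hcl' : Cl G D (A.erase x) := by
      refine ⟨fun z hz => ?_, fun a ha b hb hab => ?_⟩
      · rw [mem_erase] at hz
        rcases mem_insert.mp (hcl.1 hz.2) with h1 | h1
        · exact absurd h1 hz.1
        · exact h1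
      · rw [mem_erase] at ha ⊢
        refine ⟨fun hbx => hx (hbx ▸ hb), hcl.2 a ha.2 b (mem_insert_of_mem hb) hab⟩
    have hsub : A.erase x ⊆ C := by
      intro z hz
      rw [mem_erase] at hz
      rcases mem_insert.mp (hA hz.2) with h1 | h1
      · exact absurd h1 hz.1
      · exact h1
    obtain ⟨z, hz, hzx⟩ := had
    have hzD : z ∈ D := h.1.1 hz
    by_cases hne' : (A.erase x).Nonempty
    · have h1 := h.2.2 _ hsub hcl' hne'
      have hzA : z ∈ A := by
        rw [← h1] at hz
        exact (mem_erase.mp hz).2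
      have hxA : x ∈ A := hcl.2 z hzA x (mem_insert_self _ _) hzx
      rw [← h1, insert_erase hxA]
    · exfalso
      rw [not_nonempty_iff_eq_empty] at hne'
      obtain ⟨a, ha⟩ := hne
      have hax : a = x := by
        by_contra hax
        have : a ∈ A.erase x := mem_erase.mpr ⟨hax, ha⟩
        rw [hne'] at this
        exact absurd this (notMem_empty _)
      subst hax
      have hzA : z ∈ A := hcl.2 a ha z (mem_insert_of_mem hzD) hzx.symm
      have hza : z ≠ a := fun h => hx (h ▸ hzD)
      have : z ∈ A.erase a := mem_erase.mpr ⟨hza, hzA⟩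
      rw [hne'] at this
      exact absurd this (notMem_empty _)

open Classical in
theorem comps_insert (D : Finset V) (y : V) :
    (comps G (insert y D)).card + ((comps G D).filter (fun C => Ad G C y)).card ≤ (comps G D).card + 1 := by
  have h1 : comps G (insert y D) ⊆ (comps G D).filter (fun C => ¬ Ad G C y) ∪
      (comps G (insert y D)).filter (fun C => y ∈ C) := by
    intro C hC
    rw [mem_union, mem_filter, mem_filter]
    by_cases hy : y ∈ C
    · exact Or.inr ⟨hC, hy⟩
    · have := (mem_comps.mp hC).of_insert hy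
      exact Or.inl ⟨mem_comps.mpr this.1, this.2⟩
  have h2 : ((comps G (insert y D)).filter (fun C => y ∈ C)).card ≤ 1 := by
    rw [card_le_one]
    intro C hC C' hC'
    rw [mem_filter] at hC hC'
    exact (mem_comps.mp hC.1).eq_of_mem (mem_comps.mp hC'.1) hC.2 hC'.2
  have h3 := card_le_card h1
  have h4 := card_union_le ((comps G D).filter (fun C => ¬ Ad G C y))
    ((comps G (insert y D)).filter (fun C => y ∈ C))
  have h5 := card_filter_add_card_filter_not (s := comps G D) (fun C => Ad G C y)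
  omega

/-- closed sets of a connected graph are trivial -/
theorem closed_of_connected {W : Type} (H : SimpleGraph W) (hH : H.Connected) (A : Set W)
    (hne : A.Nonempty) (hA : ∀ a ∈ A, ∀ b, H.Adj a b → b ∈ A) : A = Set.univ := by
  obtain ⟨a, ha⟩ := hne
  have key : ∀ u v : W, H.Walk u v → u ∈ A → v ∈ A := by
    intro u v p
    induction p with
    | nil => exact fun h => h
    | cons h _ ih => exact fun hu => ih (hA _ hu _ h)
  refine Set.eq_univ_of_forall fun b => ?_
  obtain ⟨p⟩ := hH.preconnected a b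
  exact key a b p ha

theorem connected_of_closed {W : Type} (H : SimpleGraph W) (hne : Nonempty W)
    (h : ∀ A : Set W, A.Nonempty → (∀ a ∈ A, ∀ b, H.Adj a b → b ∈ A) → A = Set.univ) :
    H.Connected := by
  have := hne
  refine SimpleGraph.Connected.mk fun u v => ?_
  have h1 := h {z | H.Reachable u z} ⟨u, SimpleGraph.Reachable.refl u⟩ (fun a ha b hab =>
    SimpleGraph.Reachable.trans ha hab.reachable)
  have : v ∈ {z | H.Reachable u z} := by
    rw [h1]
    exact Set.mem_univ v
  exact this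

end Pool.Agent.LPR
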