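import Pool.Agent.LPR.Comps

/-!
# The swap inequality (MP_e3976a_co)
-/

set_option autoImplicit false

set_option linter.unusedSectionVars false

namespace Pool.Agent.LPR

open Finset

variable {V : Type} [Fintype V] [DecidableEq V] (G : SimpleGraph V)

open Classical in
/-- vertices outside of `D` adjacent to the component `C` and to another component of `G[D]` -/
noncomputable def sh (D C : Finset V) : Finset V :=
  univ.filter (fun y => y ∉ D ∧ Ad G C y ∧ ∃ C' ∈ comps G D, C' ≠ C ∧ Ad G C' y)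

open Classical in
/-- vertices outside of `D`, adjacent in `D` only to the component `C`, with a neighbour outside of
`D` which is not adjacent to `C` but to another component of `G[D]` -/
noncomputable def lo (D C : Finset V) : Finset V :=
  univ.filter (fun x => x ∉ D ∧ Ad G C x ∧ (∀ z ∈ D, G.Adj z x → z ∈ C) ∧
    ∃ y, y ∉ D ∧ G.Adj x y ∧ ¬ Ad G C y ∧ ∃ C' ∈ comps G D, C' ≠ C ∧ Ad G C' y)

/-- number of short incidences -/
noncomputable def sn (D : Finset V) : ℕ := ∑ C ∈ comps G D, (sh G D C).card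

/-- number of long incidences -/
noncomputable def ln (D : Finset V) : ℕ := ∑ C ∈ comps G D, (lo G D C).card

/-- every vertex outside of `D` has a neighbour in `D` -/
def Dom (D : Finset V) : Prop := ∀ y, y ∉ D → ∃ z ∈ D, G.Adj z y

variable {G}

theorem mem_sh {D C : Finset V} {y : V} : y ∈ sh G D C ↔
    y ∉ D ∧ Ad G C y ∧ ∃ C' ∈ comps G D, C' ≠ C ∧ Ad G C' y := by
  simp [sh]

theorem mem_lo {D C : Finset V} {x : V} : x ∈ lo G D C ↔
    x ∉ D ∧ Ad G C x ∧ (∀ z ∈ D, G.Adj z x → z ∈ C) ∧
    ∃ y, y ∉ D ∧ G.Adj x y ∧ ¬ Ad G C y ∧ ∃ C' ∈ comps G D, C' ≠ C ∧ Ad G C' y := by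
  simp [lo]

/-- the swap inequality -/
theorem swap (i : ℕ) : ∑ D ∈ powersetCard i univ, ln G D ≤ ∑ D ∈ powersetCard (i + 1) univ, sn G D := by
  classical
  -- the two sets of triples
  set A : Finset (Finset V × Finset V × V) := univ.filter (fun t =>
    t.1.card = i ∧ t.2.1 ∈ comps G t.1 ∧ t.2.2 ∈ lo G t.1 t.2.1) with hA
  set B : Finset (Finset V × Finset V × V) := univ.filter (fun t =>
    t.1.card = i + 1 ∧ t.2.1 ∈ comps G t.1 ∧ t.2.2 ∈ sh G t.1 t.2.1) with hB
  have cardgen : ∀ (m : ℕ) (g : Finset V → Finset V → Finset V),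
      ∑ D ∈ powersetCard m (univ : Finset V), ∑ C ∈ comps G D, (g D C).card =
      (univ.filter (fun t : Finset V × Finset V × V =>
        t.1.card = m ∧ t.2.1 ∈ comps G t.1 ∧ t.2.2 ∈ g t.1 t.2.1)).card := by
    intro m g
    rw [card_eq_sum_ones, sum_filter, ← univ_product_univ, sum_product]
    have h1 : ∀ D : Finset V, (∑ p : Finset V × V, if (D.card = m ∧ p.1 ∈ comps G D ∧ p.2 ∈ g D p.1) then 1 else 0) =
        if D.card = m then ∑ C ∈ comps G D, (g D C).card else 0 := by
      intro D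
      split_ifs with h
      · rw [← univ_product_univ, sum_product]
        have h2 : ∀ C : Finset V, (∑ x : V, if (D.card = m ∧ C ∈ comps G D ∧ x ∈ g D C) then 1 else 0) =
            if C ∈ comps G D then (g D C).card else 0 := by
          intro C
          split_ifs with h'
          · simp [h, h']
          · simp [h']
        simp only [h2]
        rw [← sum_filter]
        congr 1
        ext C
        simp
      · simp [h]
    simp only [h1]
    rw [← sum_filter]
    refine sum_congr ?_ fun _ _ => rfl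
    ext D
    simp [mem_powersetCard]
  have e1 : ∑ D ∈ powersetCard i univ, ln G D = A.card := cardgen i (fun D C => lo G D C)
  have e2 : ∑ D ∈ powersetCard (i + 1) univ, sn G D = B.card := cardgen (i + 1) (fun D C => sh G D C)
  rw [e1, e2]
  -- a choice of the neighbour
  have hch : ∀ t : Finset V × Finset V × V, ∃ y : V, t ∈ A →
      y ∉ t.1 ∧ G.Adj t.2.2 y ∧ ¬ Ad G t.2.1 y ∧ ∃ C' ∈ comps G t.1, C' ≠ t.2.1 ∧ Ad G C' y := by
    intro t
    by_cases ht : t ∈ A
    · rw [hA, mem_filter] at ht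
      obtain ⟨y, hy⟩ := (mem_lo.mp ht.2.2.2).2.2.2
      exact ⟨y, fun _ => hy⟩
    · exact ⟨t.2.2, fun h => absurd h ht⟩
  choose Y hY using hch
  refine card_le_card_of_injOn (fun t => (insert t.2.2 t.1, insert t.2.2 t.2.1, Y t)) ?_ ?_
  · intro t ht
    have hYt := hY t ht
    rw [mem_coe, hA, mem_filter] at ht
    rw [mem_coe, hB, mem_filter]
    obtain ⟨-, hcard, hC, hx⟩ := ht
    obtain ⟨hxD, hxC, honly, -⟩ := mem_lo.mp hx
    have hIsC := mem_comps.mp hC
    have hC' : IsC G (insert t.2.2 t.1) (insert t.2.2 t.2.1) := hIsC.insert_attach hxD hxC honly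
    have hYx : Y t ≠ t.2.2 := fun h => by
      have := hYt.2.1
      rw [h] at this
      exact this.ne rfl
    refine ⟨mem_univ _, ?_, mem_comps.mpr hC', ?_⟩
    · rw [card_insert_of_notMem hxD, hcard]
    · rw [mem_sh]
      obtain ⟨h1, h2, h3, C', hC'm, hC'ne, hC'ad⟩ := hYt
      refine ⟨?_, ⟨t.2.2, mem_insert_self _ _, h2⟩, C', ?_, ?_, hC'ad⟩
      · intro h
        rcases mem_insert.mp h with h | h
        · exact hYx h
        · exact h1 h
      · refine mem_comps.mpr ((mem_comps.mp hC'm).insert_of_not_ad ?_)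
        rintro ⟨z, hz, hzx⟩
        have hzD : z ∈ t.1 := (mem_comps.mp hC'm).1.1 hz
        exact hC'ne ((mem_comps.mp hC'm).eq_of_mem hIsC hz (honly z hzD hzx))
      · intro h
        have : t.2.2 ∈ C' := by
          rw [h]
          exact mem_insert_self _ _
        exact hxD ((mem_comps.mp hC'm).1.1 this)
  · intro t ht t' ht' heq
    have hYt := hY t ht
    have hYt' := hY t' ht'
    rw [mem_coe, hA, mem_filter] at ht ht'
    obtain ⟨-, -, hC, hx⟩ := ht
    obtain ⟨-, -, hC2, hx2⟩ := ht'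
    obtain ⟨hxD, -, -, -⟩ := mem_lo.mp hx
    obtain ⟨hxD2, -, -, -⟩ := mem_lo.mp hx2
    simp only [Prod.mk.injEq] at heq
    obtain ⟨h1, h2, h3⟩ := heq
    -- the vertex `x` is the unique neighbour of `y` in the component
    have hxx : t.2.2 = t'.2.2 := by
      by_contra hne
      have h4 : t.2.2 ∈ insert t'.2.2 t'.2.1 := by
        rw [← h2]
        exact mem_insert_self _ _
      rcases mem_insert.mp h4 with h4 | h4
      · exact hne h4
      · apply hYt'.2.2.1
        refine ⟨t.2.2, h4, ?_⟩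
        rw [← h3]
        exact hYt.2.1
    have hnC : t.2.2 ∉ t.2.1 := fun h => hxD ((mem_comps.mp hC).1.1 h)
    have hnC2 : t'.2.2 ∉ t'.2.1 := fun h => hxD2 ((mem_comps.mp hC2).1.1 h)
    have hD : t.1 = t'.1 := by
      have : (insert t.2.2 t.1).erase t.2.2 = (insert t'.2.2 t'.1).erase t'.2.2 := by rw [h1, hxx]
      rwa [erase_insert hxD, erase_insert hxD2] at this
    have hCC : t.2.1 = t'.2.1 := by
      have : (insert t.2.2 t.2.1).erase t.2.2 = (insert t'.2.2 t'.2.1).erase t'.2.2 := by rw [h2, hxx]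
      rwa [erase_insert hnC, erase_insert hnC2] at this
    exact Prod.ext hD (Prod.ext hCC hxx)

/-- sums over pairs -/
theorem sum_insert_pairs (φ : Finset V → ℝ) (i : ℕ) :
    ∑ D ∈ powersetCard i univ, ∑ y ∈ Dᶜ, φ (insert y D) =
      ((i : ℝ) + 1) * ∑ D ∈ powersetCard (i + 1) univ, φ D := by
  classical
  have h1 : ((i : ℝ) + 1) * ∑ D ∈ powersetCard (i + 1) (univ : Finset V), φ D =
      ∑ D ∈ powersetCard (i + 1) (univ : Finset V), ∑ _y ∈ D, φ D := by
    rw [mul_sum]
    refine sum_congr rfl fun D hD => ?_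
    rw [sum_const, (mem_powersetCard.mp hD).2, nsmul_eq_mul]
    push_cast
    ring
  rw [h1, sum_sigma', sum_sigma']
  refine sum_nbij' (fun p => ⟨insert p.2 p.1, p.2⟩) (fun p => ⟨p.1.erase p.2, p.2⟩) ?_ ?_ ?_ ?_ ?_
  · rintro ⟨D, y⟩ h
    simp only [mem_sigma, mem_powersetCard, subset_univ, true_and, mem_compl] at h ⊢
    refine ⟨?_, mem_insert_self _ _⟩
    rw [card_insert_of_notMem h.2, h.1]
  · rintro ⟨D, y⟩ h
    simp only [mem_sigma, mem_powersetCard, subset_univ, true_and, mem_compl] at h ⊢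
    refine ⟨?_, fun h' => (mem_erase.mp h').1 rfl⟩
    rw [card_erase_of_mem h.2, h.1]
    rfl
  · rintro ⟨D, y⟩ h
    simp only [mem_sigma, mem_powersetCard, subset_univ, true_and, mem_compl] at h
    simp only [erase_insert h.2]
  · rintro ⟨D, y⟩ h
    simp only [mem_sigma, mem_powersetCard, subset_univ, true_and, mem_compl] at h
    simp only [insert_erase h.2]
  · rintro ⟨D, y⟩ _
    rfl

end Pool.Agent.LPR
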