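import Pool.Agent.LPR.Rec

/-!
# The number of components of a random set, and domination (MP_e3976a_co)
-/

set_option autoImplicit false

set_option linter.unusedSectionVars false

namespace Pool.Agent.LPR

open Finset

variable {V : Type} [Fintype V] [DecidableEq V] {G : SimpleGraph V}

open Classical in
/-- the closed neighbourhood -/
noncomputable def cN (G : SimpleGraph V) (y : V) : Finset V := univ.filter (fun z => z = y ∨ G.Adj y z)

theorem mem_cN {y z : V} : z ∈ cN G y ↔ z = y ∨ G.Adj y z := by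
  simp [cN]

theorem self_mem_cN (y : V) : y ∈ cN G y := mem_cN.mpr (Or.inl rfl)

/-- by symmetry -/
theorem sym (A : Finset V) (i : ℕ) {y a : V} (hy : y ∈ A) (ha : a ∈ A) :
    ∑ D ∈ powersetCard i (univ : Finset V), (if y ∈ D then (1 : ℝ) / ((D ∩ A).card : ℝ) else 0) =
    ∑ D ∈ powersetCard i (univ : Finset V), (if a ∈ D then (1 : ℝ) / ((D ∩ A).card : ℝ) else 0) := by
  have hA : ∀ z, (Equiv.swap y a).symm z ∈ A ↔ z ∈ A := by
    intro z
    rw [Equiv.symm_swap]
    by_cases h1 : z = y
    · rw [h1, Equiv.swap_apply_left]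
      exact ⟨fun _ => hy, fun _ => ha⟩
    · by_cases h2 : z = a
      · rw [h2, Equiv.swap_apply_right]
        exact ⟨fun _ => ha, fun _ => hy⟩
      · rw [Equiv.swap_apply_of_ne_of_ne h1 h2]
  refine sum_equiv (Equiv.swap y a).finsetCongr ?_ ?_
  · intro D
    simp [mem_powersetCard, Equiv.finsetCongr_apply]
  · intro D _
    rw [Equiv.finsetCongr_apply]
    have h1 : a ∈ D.map (Equiv.swap y a).toEmbedding ↔ y ∈ D := by
      rw [mem_map_equiv, Equiv.symm_swap, Equiv.swap_apply_right]
    have h2 : D.map (Equiv.swap y a).toEmbedding ∩ A = (D ∩ A).map (Equiv.swap y a).toEmbedding := by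
      ext z
      rw [mem_inter, mem_map_equiv, mem_map_equiv, mem_inter, hA z]
    rw [h2, card_map]
    by_cases h3 : y ∈ D
    · rw [if_pos h3, if_pos (h1.mpr h3)]
    · rw [if_neg h3, if_neg fun h => h3 (h1.mp h)]

theorem mean_inv (A : Finset V) {i : ℕ} (hi : i ≤ Fintype.card V) {y : V} (hy : y ∈ A) :
    av i (fun D : Finset V => if y ∈ D then (1 : ℝ) / ((D ∩ A).card : ℝ) else 0) ≤
      1 / (A.card : ℝ) := by
  have hA : 0 < A.card := card_pos.mpr ⟨y, hy⟩
  have hA' : (0 : ℝ) < A.card := by exact_mod_cast hA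
  have h1 : (A.card : ℝ) * ∑ D ∈ powersetCard i (univ : Finset V),
      (if y ∈ D then (1 : ℝ) / ((D ∩ A).card : ℝ) else 0) =
      ∑ a ∈ A, ∑ D ∈ powersetCard i (univ : Finset V),
      (if a ∈ D then (1 : ℝ) / ((D ∩ A).card : ℝ) else 0) := by
    rw [← nsmul_eq_mul, ← sum_const]
    exact sum_congr rfl fun a ha => sym A i hy ha
  have h2 : ∑ a ∈ A, ∑ D ∈ powersetCard i (univ : Finset V),
      (if a ∈ D then (1 : ℝ) / ((D ∩ A).card : ℝ) else 0) ≤
      ∑ D ∈ powersetCard i (univ : Finset V), (1 : ℝ) := by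
    rw [sum_comm]
    refine sum_le_sum fun D _ => ?_
    rw [← sum_filter, sum_const, nsmul_eq_mul]
    have h3 : A.filter (fun a => a ∈ D) = D ∩ A := by
      ext z
      rw [mem_filter, mem_inter, and_comm]
    rw [h3, mul_one_div]
    exact div_self_le_one _
  have h4 : ∑ D ∈ powersetCard i (univ : Finset V), (1 : ℝ) =
      ((Fintype.card V).choose i : ℝ) := by
    rw [sum_const, card_powersetCard, card_univ, nsmul_eq_mul, mul_one]
  rw [← h1, h4] at h2
  have hc := choose_pos' (V := V) hi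
  unfold av
  rw [div_le_div_iff₀ hc hA']
  linarith

theorem comps_le_sum (D : Finset V) :
    ((comps G D).card : ℝ) ≤ ∑ y, (if y ∈ D then (1 : ℝ) / ((D ∩ cN G y).card : ℝ) else 0) := by
  classical
  have h0 : ∀ y, (0 : ℝ) ≤ 1 / ((D ∩ cN G y).card : ℝ) := fun y => by positivity
  have h1 : ∀ C ∈ comps G D, (1 : ℝ) ≤ ∑ y ∈ C, (1 : ℝ) / ((D ∩ cN G y).card : ℝ) := by
    intro C hC
    have hI := mem_comps.mp hC
    have hCp : 0 < C.card := card_pos.mpr hI.2.1
    have hCp' : (0 : ℝ) < C.card := by exact_mod_cast hCp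
    have h2 : ∑ y ∈ C, (1 : ℝ) / (C.card : ℝ) ≤ ∑ y ∈ C, (1 : ℝ) / ((D ∩ cN G y).card : ℝ) := by
      refine sum_le_sum fun y hy => ?_
      have h3 : (D ∩ cN G y).card ≤ C.card := by
        refine card_le_card fun z hz => ?_
        rw [mem_inter, mem_cN] at hz
        rcases hz.2 with h | h
        · rw [h]
          exact hy
        · exact hI.1.2 y hy z hz.1 h
      have h4 : 0 < (D ∩ cN G y).card :=
        card_pos.mpr ⟨y, mem_inter.mpr ⟨hI.1.1 hy, self_mem_cN y⟩⟩
      have h3' : ((D ∩ cN G y).card : ℝ) ≤ C.card := by exact_mod_cast h3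
      have h4' : (0 : ℝ) < (D ∩ cN G y).card := by exact_mod_cast h4
      exact one_div_le_one_div_of_le h4' h3'
    rw [sum_const, nsmul_eq_mul, mul_one_div, div_self hCp'.ne'] at h2
    exact h2
  have h5 : ((comps G D).card : ℝ) ≤ ∑ C ∈ comps G D, ∑ y ∈ C,
      (1 : ℝ) / ((D ∩ cN G y).card : ℝ) := by
    have := sum_le_sum h1
    rw [sum_const, nsmul_eq_mul, mul_one] at this
    exact this
  refine h5.trans ?_
  rw [← sum_filter]
  have h6 : ∑ C ∈ comps G D, ∑ y ∈ C, (1 : ℝ) / ((D ∩ cN G y).card : ℝ) =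
      ∑ y ∈ (comps G D).biUnion id, (1 : ℝ) / ((D ∩ cN G y).card : ℝ) := by
    rw [sum_biUnion]
    · rfl
    · intro C hC C' hC' hne
      rw [Function.onFun, disjoint_left]
      intro z hz hz'
      exact hne ((mem_comps.mp hC).eq_of_mem (mem_comps.mp hC') hz hz')
  rw [h6]
  refine sum_le_sum_of_subset_of_nonneg ?_ fun y _ _ => h0 y
  intro y hy
  rw [mem_biUnion] at hy
  obtain ⟨C, hC, hy⟩ := hy
  rw [mem_filter]
  exact ⟨mem_univ _, (mem_comps.mp hC).1.1 hy⟩

/-- the mean number of components -/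
theorem mean_comps {i d : ℕ} (hi : i ≤ Fintype.card V) (hd : ∀ y, d + 1 ≤ (cN G y).card) :
    xx G i ≤ (Fintype.card V : ℝ) / (d + 1) - 1 := by
  unfold xx
  have h1 : av i (fun D : Finset V => ((comps G D).card : ℝ)) ≤
      av i (fun D : Finset V => ∑ y, (if y ∈ D then (1 : ℝ) / ((D ∩ cN G y).card : ℝ) else 0)) :=
    av_mono i _ _ fun D _ => comps_le_sum D
  have h2 : av i (fun D : Finset V => ∑ y, (if y ∈ D then (1 : ℝ) / ((D ∩ cN G y).card : ℝ) else 0))
      = ∑ y, av i (fun D : Finset V => if y ∈ D then (1 : ℝ) / ((D ∩ cN G y).card : ℝ) else 0) := by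
    unfold av
    rw [sum_comm, sum_div]
  have h3 : ∑ y : V, av i (fun D : Finset V => if y ∈ D then (1 : ℝ) / ((D ∩ cN G y).card : ℝ)
      else 0) ≤ ∑ _y : V, (1 : ℝ) / (d + 1) := by
    refine sum_le_sum fun y _ => ?_
    refine (mean_inv (cN G y) hi (self_mem_cN y)).trans ?_
    have h4 : ((d : ℝ) + 1) ≤ (cN G y).card := by exact_mod_cast hd y
    exact one_div_le_one_div_of_le (by positivity) h4
  rw [sum_const, card_univ, nsmul_eq_mul, mul_one_div] at h3
  linarith

theorem choose_ratio {n i : ℕ} (hi : i ≤ n) (j : ℕ) (hj : j ≤ n) :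
    ((n - j).choose i : ℝ) * (n : ℝ) ^ j ≤ (n.choose i : ℝ) * ((n : ℝ) - i) ^ j := by
  have hin : (i : ℝ) ≤ n := by exact_mod_cast hi
  induction j with
  | zero => simp
  | succ j ih =>
    have ih' := ih (by omega)
    obtain ⟨N, hN⟩ : ∃ N, N = n - (j + 1) := ⟨_, rfl⟩
    have hN1 : n - j = N + 1 := by omega
    rw [hN1] at ih'
    rw [← hN]
    have h1 := Nat.choose_mul_succ_eq N i
    have h2 : ((N.choose i : ℝ)) * ((N : ℝ) + 1) = ((N + 1).choose i : ℝ) * ((N + 1 - i : ℕ) : ℝ) := by
      exact_mod_cast h1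
    have h3 : ((N + 1 - i : ℕ) : ℝ) * n ≤ ((n : ℝ) - i) * ((N : ℝ) + 1) := by
      have hNn : (N : ℝ) + 1 ≤ n := by exact_mod_cast (by omega : N + 1 ≤ n)
      by_cases h : i ≤ N + 1
      · rw [Nat.cast_sub h]
        push_cast
        nlinarith [Nat.cast_nonneg (α := ℝ) i]
      · have : N + 1 - i = 0 := by omega
        rw [this, Nat.cast_zero, zero_mul]
        have : 0 ≤ (n : ℝ) - i := by linarith
        positivity
    have hN0 : (0 : ℝ) < (N : ℝ) + 1 := by positivity
    have hni : 0 ≤ (n : ℝ) - i := by linarith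
    have h4 : ((N.choose i : ℝ)) * (n : ℝ) ^ (j + 1) * ((N : ℝ) + 1) ≤
        ((n.choose i : ℝ) * ((n : ℝ) - i) ^ (j + 1)) * ((N : ℝ) + 1) := by
      calc ((N.choose i : ℝ)) * (n : ℝ) ^ (j + 1) * ((N : ℝ) + 1)
          = (((N.choose i : ℝ)) * ((N : ℝ) + 1)) * ((n : ℝ) ^ j * n) := by ring
        _ = (((N + 1).choose i : ℝ) * (n : ℝ) ^ j) * (((N + 1 - i : ℕ) : ℝ) * n) := by
            rw [h2]
            ring
        _ ≤ ((n.choose i : ℝ) * ((n : ℝ) - i) ^ j) * (((n : ℝ) - i) * ((N : ℝ) + 1)) :=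
            mul_le_mul ih' h3 (by positivity) (by positivity)
        _ = _ := by ring
    exact le_of_mul_le_mul_right h4 hN0

/-- domination -/
theorem bb_le {i d : ℕ} (hi : i ≤ Fintype.card V) (hd : ∀ y, d + 1 ≤ (cN G y).card) :
    bb G i ≤ Fintype.card V * (((Fintype.card V : ℝ) - i) / Fintype.card V) ^ (d + 1) := by
  classical
  obtain ⟨n, hn⟩ : ∃ n, n = Fintype.card V := ⟨_, rfl⟩
  by_cases hV : Nonempty V
  swap
  · rw [not_nonempty_iff] at hV
    have h1 : bb G i ≤ 0 := by
      unfold bb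
      have := av_mono i (fun D : Finset V => if Dom G D then (0 : ℝ) else 1) (fun _ => 0) (by
        intro D _
        rw [if_pos]
        intro y
        exact (hV.false y).elim)
      refine this.trans ?_
      unfold av
      simp
    refine h1.trans ?_
    rw [Fintype.card_eq_zero]
    simp
  have hn0 : 0 < Fintype.card V := Fintype.card_pos
  have hn0' : (0 : ℝ) < Fintype.card V := by exact_mod_cast hn0
  have hin : (i : ℝ) ≤ Fintype.card V := by exact_mod_cast hi
  have h1 : ∀ D : Finset V, (if Dom G D then (0 : ℝ) else 1) ≤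
      ∑ y, if Disjoint D (cN G y) then (1 : ℝ) else 0 := by
    intro D
    by_cases hD : Dom G D
    · rw [if_pos hD]
      exact sum_nonneg fun y _ => by split_ifs <;> norm_num
    · rw [if_neg hD]
      unfold Dom at hD
      push Not at hD
      obtain ⟨y, hy, hyD⟩ := hD
      have h2 : Disjoint D (cN G y) := by
        rw [disjoint_left]
        intro z hz hzy
        rcases mem_cN.mp hzy with h | h
        · rw [h] at hz
          exact hy hz
        · exact hyD z hz h.symm
      have h3 : (if Disjoint D (cN G y) then (1 : ℝ) else 0) ≤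
          ∑ y, if Disjoint D (cN G y) then (1 : ℝ) else 0 :=
        single_le_sum (f := fun y => if Disjoint D (cN G y) then (1 : ℝ) else 0)
          (fun y _ => by split_ifs <;> norm_num) (mem_univ y)
      rw [if_pos h2] at h3
      exact h3
  have h2 : bb G i ≤ av i (fun D : Finset V => ∑ y, if Disjoint D (cN G y) then (1 : ℝ) else 0) :=
    av_mono i _ _ fun D _ => h1 D
  have h3 : av i (fun D : Finset V => ∑ y, if Disjoint D (cN G y) then (1 : ℝ) else 0)
      = ∑ y, av i (fun D : Finset V => if Disjoint D (cN G y) then (1 : ℝ) else 0) := by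
    unfold av
    rw [sum_comm, sum_div]
  have h4 : ∀ y, av i (fun D : Finset V => if Disjoint D (cN G y) then (1 : ℝ) else 0) ≤
      (((Fintype.card V : ℝ) - i) / Fintype.card V) ^ (d + 1) := by
    intro y
    have e1 : ∑ D ∈ powersetCard i (univ : Finset V),
        (if Disjoint D (cN G y) then (1 : ℝ) else 0) =
        ((Fintype.card V - (cN G y).card).choose i : ℝ) := by
      rw [← sum_filter, sum_const, nsmul_eq_mul, mul_one]
      have e2 : (powersetCard i (univ : Finset V)).filter (fun D => Disjoint D (cN G y)) =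
          powersetCard i (cN G y)ᶜ := by
        ext D
        rw [mem_filter, mem_powersetCard, mem_powersetCard]
        constructor
        · rintro ⟨⟨-, h⟩, h'⟩
          refine ⟨fun z hz => ?_, h⟩
          rw [mem_compl]
          exact disjoint_left.mp h' hz
        · rintro ⟨h', h⟩
          refine ⟨⟨subset_univ _, h⟩, ?_⟩
          rw [disjoint_left]
          intro z hz
          exact mem_compl.mp (h' hz)
      rw [e2, card_powersetCard, card_compl]
    have hc := choose_pos' (V := V) hi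
    have h5 := choose_ratio hi (cN G y).card (card_le_univ _)
    have h6 : 0 ≤ ((Fintype.card V : ℝ) - i) / Fintype.card V := div_nonneg (by linarith) hn0'.le
    have h7 : ((Fintype.card V : ℝ) - i) / Fintype.card V ≤ 1 := by
      rw [div_le_one hn0']
      linarith [Nat.cast_nonneg (α := ℝ) i]
    refine le_trans ?_ (pow_le_pow_of_le_one h6 h7 (hd y))
    unfold av
    rw [e1, div_le_iff₀ hc, div_pow, div_mul_eq_mul_div, le_div_iff₀ (by positivity)]
    linarith
  refine h2.trans ?_
  rw [h3]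
  refine (sum_le_sum fun y _ => h4 y).trans ?_
  rw [sum_const, card_univ, nsmul_eq_mul]

end Pool.Agent.LPR
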