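import Pool.Agent.LPR.Path

/-!
# Estimates, and the theorem (MP_e3976a_co)
-/

set_option autoImplicit false

set_option linter.unusedSectionVars false

namespace Pool.Agent.LPR

open Finset

variable {V : Type} [Fintype V] [DecidableEq V] {G : SimpleGraph V}

/-- closed neighbourhoods are large -/
theorem cN_card {m : ℕ} (hm : Cn G m) (hmn : m < Fintype.card V) (y : V) :
    m + 1 ≤ (cN G y).card := by
  classical
  by_contra hlt
  have h1 : ((cN G y).erase y).card < m := by
    rw [card_erase_of_mem (self_mem_cN y)]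
    have : 0 < (cN G y).card := card_pos.mpr ⟨y, self_mem_cN y⟩
    omega
  have h2 := hm _ h1 {y} ?_ ⟨y, mem_singleton_self y⟩ ?_
  · have h3 : (univ : Finset V) ⊆ cN G y := by
      intro x _
      by_cases hx : x ∈ (cN G y).erase y
      · exact (mem_erase.mp hx).2
      · have := h2 x hx
        rw [mem_singleton] at this
        rw [this]
        exact self_mem_cN y
    have h4 := card_le_card h3
    rw [card_univ] at h4
    omega
  · intro a ha
    rw [mem_singleton] at ha
    rw [ha]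
    exact notMem_erase y _
  · intro a ha b hb hab
    rw [mem_singleton] at ha
    rw [ha] at hab
    exfalso
    exact hb (mem_erase.mpr ⟨hab.ne.symm, mem_cN.mpr (Or.inr hab)⟩)

/-- the bound for `bb` -/
theorem bb_exp {d i : ℕ} (hd : ∀ y, d + 1 ≤ (cN G y).card) (hi : i ≤ Fintype.card V)
    (hi10 : Fintype.card V ≤ 10 * i) :
    bb G i ≤ Fintype.card V * Real.exp (-(d : ℝ) / 10) := by
  refine (bb_le hi hd).trans (mul_le_mul_of_nonneg_left ?_ (Nat.cast_nonneg _))
  by_cases hn : Fintype.card V = 0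
  · rw [hn]
    simp
    positivity
  have hn' : (0 : ℝ) < Fintype.card V := by exact_mod_cast Nat.pos_of_ne_zero hn
  have hi' : (i : ℝ) ≤ Fintype.card V := by exact_mod_cast hi
  have hi10' : (Fintype.card V : ℝ) ≤ 10 * i := by exact_mod_cast hi10
  have h1 : ((Fintype.card V : ℝ) - i) / Fintype.card V ≤ Real.exp (-(1 / 10)) := by
    have h2 : ((Fintype.card V : ℝ) - i) / Fintype.card V ≤ 1 - 1 / 10 := by
      rw [div_le_iff₀ hn']
      linarith
    have h3 := Real.add_one_le_exp (-(1 / 10 : ℝ))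
    linarith
  have h0 : 0 ≤ ((Fintype.card V : ℝ) - i) / Fintype.card V := div_nonneg (by linarith) hn'.le
  calc (((Fintype.card V : ℝ) - i) / Fintype.card V) ^ (d + 1)
      ≤ Real.exp (-(1 / 10)) ^ (d + 1) := pow_le_pow_left₀ h0 h1 _
    _ = Real.exp (((d + 1 : ℕ) : ℝ) * (-(1 / 10))) := by rw [Real.exp_nat_mul]
    _ ≤ Real.exp (-(d : ℝ) / 10) := by
        apply Real.exp_le_exp.mpr
        push_cast
        linarith

/-- iteration of the recursion -/
theorem iter {m d : ℕ} (hm : Cn G m) (hmn : m < Fintype.card V)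
    (hd : ∀ y, d + 1 ≤ (cN G y).card) (hn : 40 ≤ Fintype.card V) (J : ℕ)
    (hJ : Fintype.card V / 8 + 2 * J < Fintype.card V) :
    xx G (Fintype.card V / 8 + 2 * J) ≤
      (1 - m / (16 * (Fintype.card V : ℝ))) ^ J * ((Fintype.card V : ℝ) / (d + 1)) +
        J * (3 * Fintype.card V * (Fintype.card V * Real.exp (-(d : ℝ) / 10))) := by
  have hn0 : (0 : ℝ) < Fintype.card V := by exact_mod_cast (by omega : 0 < Fintype.card V)
  have hmn' : (m : ℝ) ≤ Fintype.card V := by exact_mod_cast hmn.le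
  have hm0 : (0 : ℝ) ≤ m := Nat.cast_nonneg m
  have hq0 : 0 ≤ 1 - m / (16 * (Fintype.card V : ℝ)) := by
    rw [sub_nonneg, div_le_one (by positivity)]
    linarith
  have hq1 : 1 - m / (16 * (Fintype.card V : ℝ)) ≤ 1 := by
    have : 0 ≤ m / (16 * (Fintype.card V : ℝ)) := by positivity
    linarith
  induction J with
  | zero =>
    have h1 := mean_comps (G := G) (i := Fintype.card V / 8) (Nat.div_le_self _ _) hd
    simp only [Nat.mul_zero, Nat.add_zero, pow_zero, one_mul, Nat.cast_zero, zero_mul, add_zero]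
    linarith
  | succ J ih =>
    have ih' := ih (by omega)
    have h1 := rec2 (G := G) hm hmn.le (i := Fintype.card V / 8 + 2 * J) (by omega) (by omega)
      (bb_exp hd (by omega) (by omega)) (bb_exp hd (by omega) (by omega))
    have h2 : Fintype.card V / 8 + 2 * (J + 1) = Fintype.card V / 8 + 2 * J + 2 := by ring
    rw [h2]
    refine h1.trans ?_
    have h3 := mul_le_mul_of_nonneg_left ih' hq0
    have h4 : (1 - m / (16 * (Fintype.card V : ℝ))) *
        (J * (3 * Fintype.card V * (Fintype.card V * Real.exp (-(d : ℝ) / 10)))) ≤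
        J * (3 * Fintype.card V * (Fintype.card V * Real.exp (-(d : ℝ) / 10))) :=
      mul_le_of_le_one_left (by positivity) hq1
    have h5 : (1 - m / (16 * (Fintype.card V : ℝ))) *
        ((1 - m / (16 * (Fintype.card V : ℝ))) ^ J * ((Fintype.card V : ℝ) / (d + 1)) +
        J * (3 * Fintype.card V * (Fintype.card V * Real.exp (-(d : ℝ) / 10)))) =
        (1 - m / (16 * (Fintype.card V : ℝ))) ^ (J + 1) * ((Fintype.card V : ℝ) / (d + 1)) +
        (1 - m / (16 * (Fintype.card V : ℝ))) *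
        (J * (3 * Fintype.card V * (Fintype.card V * Real.exp (-(d : ℝ) / 10)))) := by
      rw [pow_succ]
      ring
    rw [h5] at h3
    push_cast
    linarith

theorem iter1 {d : ℕ} (hd : ∀ y, d + 1 ≤ (cN G y).card) (i : ℕ)
    (hi10 : Fintype.card V ≤ 10 * i) (j : ℕ) (hj : i + j ≤ Fintype.card V) :
    xx G (i + j) ≤ xx G i +
      j * (Fintype.card V * (Fintype.card V * Real.exp (-(d : ℝ) / 10))) := by
  induction j with
  | zero => simp
  | succ j ih =>
    have ih' := ih (by omega)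
    have h1 := rec1 (G := G) (i := i + j) (by omega) (bb_exp hd (by omega) (by omega))
    have h2 : i + (j + 1) = i + j + 1 := by ring
    rw [h2]
    push_cast
    linarith

/-- the bound for the probability of not being good -/
theorem gb_bound {m d : ℕ} (hm : Cn G m) (hmn : m < Fintype.card V)
    (hd : ∀ y, d + 1 ≤ (cN G y).card) (hn : 40 ≤ Fintype.card V) (h : ℕ)
    (hh : Fintype.card V / 4 ≤ h) (hhn : h ≤ Fintype.card V) :
    gb G h ≤ Real.exp (-(m : ℝ) / 512) * ((Fintype.card V : ℝ) / (d + 1)) +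
      5 * (Fintype.card V : ℝ) ^ 3 * Real.exp (-(d : ℝ) / 10) := by
  obtain ⟨n, hnd⟩ : ∃ n, n = Fintype.card V := ⟨_, rfl⟩
  obtain ⟨i₀, hi₀⟩ : ∃ i₀, i₀ = n / 8 := ⟨_, rfl⟩
  obtain ⟨J, hJd⟩ : ∃ J, J = (n / 4 - n / 8) / 2 := ⟨_, rfl⟩
  have h1 := iter hm hmn hd hn J (by omega)
  have h2 := iter1 hd (Fintype.card V / 8 + 2 * J) (by omega)
    (h - (Fintype.card V / 8 + 2 * J)) (by omega)
  have e1 : Fintype.card V / 8 + 2 * J + (h - (Fintype.card V / 8 + 2 * J)) = h := by omega
  rw [e1] at h2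
  have h3 := gb_le (G := G) hhn (by omega)
  have h4 := bb_exp hd hhn (by omega : Fintype.card V ≤ 10 * h)
  have hn0 : (0 : ℝ) < Fintype.card V := by exact_mod_cast (by omega : 0 < Fintype.card V)
  have hn1 : (1 : ℝ) ≤ Fintype.card V := by exact_mod_cast (by omega : 1 ≤ Fintype.card V)
  have hmn' : (m : ℝ) ≤ Fintype.card V := by exact_mod_cast hmn.le
  have hm0 : (0 : ℝ) ≤ m := Nat.cast_nonneg m
  obtain ⟨E, hE⟩ : ∃ E, E = Real.exp (-(d : ℝ) / 10) := ⟨_, rfl⟩
  have hE0 : 0 < E := by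
    rw [hE]
    exact Real.exp_pos _
  rw [← hE] at h1 h2 h4 ⊢
  -- the power
  have hJ1 : (Fintype.card V : ℝ) ≤ 32 * J := by exact_mod_cast (by omega : Fintype.card V ≤ 32 * J)
  have hJ2 : (J : ℝ) ≤ Fintype.card V := by exact_mod_cast (by omega : J ≤ Fintype.card V)
  have h5 : (1 - m / (16 * (Fintype.card V : ℝ))) ^ J ≤ Real.exp (-(m : ℝ) / 512) := by
    have a1 : 1 - m / (16 * (Fintype.card V : ℝ)) ≤ Real.exp (-(m / (16 * (Fintype.card V : ℝ)))) := by
      have := Real.add_one_le_exp (-(m / (16 * (Fintype.card V : ℝ))))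
      linarith
    have a0 : 0 ≤ 1 - m / (16 * (Fintype.card V : ℝ)) := by
      rw [sub_nonneg, div_le_one (by positivity)]
      linarith
    calc (1 - m / (16 * (Fintype.card V : ℝ))) ^ J
        ≤ Real.exp (-(m / (16 * (Fintype.card V : ℝ)))) ^ J := pow_le_pow_left₀ a0 a1 _
      _ = Real.exp (J * (-(m / (16 * (Fintype.card V : ℝ))))) := by rw [Real.exp_nat_mul]
      _ ≤ Real.exp (-(m : ℝ) / 512) := by
          apply Real.exp_le_exp.mpr
          have a2 : (m : ℝ) / 512 ≤ J * (m / (16 * (Fintype.card V : ℝ))) := by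
            rw [mul_div_assoc', div_le_div_iff₀ (by norm_num) (by positivity)]
            nlinarith
          have a3 : -(m : ℝ) / 512 = -((m : ℝ) / 512) := by ring
          rw [a3]
          linarith
  have h6 : (1 - m / (16 * (Fintype.card V : ℝ))) ^ J * ((Fintype.card V : ℝ) / (d + 1)) ≤
      Real.exp (-(m : ℝ) / 512) * ((Fintype.card V : ℝ) / (d + 1)) :=
    mul_le_mul_of_nonneg_right h5 (by positivity)
  have h7 : (J : ℝ) * (3 * Fintype.card V * (Fintype.card V * E)) ≤
      Fintype.card V * (3 * Fintype.card V * (Fintype.card V * E)) :=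
    mul_le_mul_of_nonneg_right hJ2 (by positivity)
  have h8 : ((h - (Fintype.card V / 8 + 2 * J) : ℕ) : ℝ) *
      (Fintype.card V * (Fintype.card V * E)) ≤
      Fintype.card V * (Fintype.card V * (Fintype.card V * E)) := by
    refine mul_le_mul_of_nonneg_right ?_ (by positivity)
    exact_mod_cast (by omega : h - (Fintype.card V / 8 + 2 * J) ≤ Fintype.card V)
  have h9 : Fintype.card V * E ≤ (Fintype.card V : ℝ) ^ 3 * E := by
    refine mul_le_mul_of_nonneg_right ?_ hE0.le
    exact le_self_pow₀ hn1 (by norm_num)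
  have e2 : Fintype.card V * (3 * Fintype.card V * (Fintype.card V * E)) =
      3 * (Fintype.card V : ℝ) ^ 3 * E := by ring
  have e3 : Fintype.card V * (Fintype.card V * (Fintype.card V * E)) =
      (Fintype.card V : ℝ) ^ 3 * E := by ring
  rw [e2] at h7
  rw [e3] at h8
  linarith

/-- the theorem -/
theorem main {k m d : ℕ} (hk : 1 ≤ k) (hm : Cn G m) (hmn : m < Fintype.card V) (hmd : m ≤ d)
    (hd : ∀ y, d + 1 ≤ (cN G y).card)
    (h : 4000 * ((k : ℝ) + Real.log ((Fintype.card V : ℝ) / d)) ≤ m) (v w : V) :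
    ∃ p : G.Walk v w, p.IsPath ∧
      (∀ x ∈ p.support, ∀ y ∈ p.support, G.Adj x y → s(x, y) ∈ p.edges) ∧
      k < Nat.card ({x : V | x ∉ p.support} : Set V) ∧
      ∀ S : Set ({x : V | x ∉ p.support} : Set V), S.ncard < k →
        ((G.induce ({x : V | x ∉ p.support} : Set V)).induce Sᶜ).Connected := by
  obtain ⟨n, hn⟩ : ∃ n : ℝ, n = (Fintype.card V : ℝ) := ⟨_, rfl⟩
  have hk' : (1 : ℝ) ≤ k := by exact_mod_cast hk
  have hdn : d + 1 ≤ Fintype.card V := (hd v).trans (card_le_univ _)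
  have hdn' : (d : ℝ) + 1 ≤ n := by
    rw [hn]
    exact_mod_cast hdn
  have hmd' : (m : ℝ) ≤ d := by exact_mod_cast hmd
  obtain ⟨L, hL⟩ : ∃ L, L = Real.log ((Fintype.card V : ℝ) / d) := ⟨_, rfl⟩
  rw [← hL] at h
  have hm0 : (0 : ℝ) ≤ m := Nat.cast_nonneg m
  have hd00 : (0 : ℝ) ≤ d := Nat.cast_nonneg d
  have hL0 : 0 ≤ L := by
    rw [hL]
    by_cases h0 : (d : ℝ) = 0
    · rw [h0, div_zero, Real.log_zero]
    · apply Real.log_nonneg
      rw [le_div_iff₀ (lt_of_le_of_ne hd00 (Ne.symm h0)), ← hn]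
      linarith
  have hm4 : (4000 : ℝ) ≤ m := by nlinarith
  have hm4k : 4000 * (k : ℝ) ≤ m := by nlinarith
  have hd4 : (4000 : ℝ) ≤ d := by linarith
  have hd0 : (0 : ℝ) < d := by linarith
  have hn0 : 0 < n := by linarith
  have hnL : n = d * Real.exp L := by
    rw [hL, Real.exp_log (by rw [← hn]; positivity), ← hn]
    field_simp
  have hm4kN : 4000 * k ≤ m := by exact_mod_cast hm4k
  have hnN : 40 ≤ Fintype.card V := by omega
  -- the bounds
  obtain ⟨t, ht⟩ : ∃ t, t = Fintype.card V / 4 := ⟨_, rfl⟩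
  have g1 := gb_bound hm hmn hd hnN t (by omega) (by omega)
  have g2 := gb_bound hm hmn hd hnN (Fintype.card V - 2 * t) (by omega) (by omega)
  rw [← hn] at g1 g2
  obtain ⟨A, hA⟩ : ∃ A, A = Real.exp (-(m : ℝ) / 512) * (n / (d + 1)) := ⟨_, rfl⟩
  obtain ⟨B, hB⟩ : ∃ B, B = 5 * n ^ 3 * Real.exp (-(d : ℝ) / 10) := ⟨_, rfl⟩
  rw [← hA, ← hB] at g1 g2
  have h3s : (3 : ℝ) ^ (k + 1) + 1 ≤ Real.exp (3 * k) := by
    have a1 : (3 : ℝ) ^ (k + 1) + 1 ≤ 10 ^ k := by
      clear * - hk
      induction k with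
      | zero => omega
      | succ k ih =>
        by_cases h0 : k = 0
        · rw [h0]
          norm_num
        · have := ih (by omega)
          have h10 : (0 : ℝ) < 10 ^ k := by positivity
          rw [pow_succ, pow_succ 10 k]
          linarith
    have a2 : (10 : ℝ) ≤ Real.exp 3 := by
      have b1 := Real.exp_one_gt_d9
      have b2 : Real.exp 3 = Real.exp 1 ^ 3 := by
        rw [← Real.exp_nat_mul]
        norm_num
      rw [b2]
      have b3 : (2.7 : ℝ) ^ 3 ≤ Real.exp 1 ^ 3 := pow_le_pow_left₀ (by norm_num) (by linarith) 3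
      norm_num at b3 ⊢
      linarith
    have a3 : (10 : ℝ) ^ k ≤ Real.exp (3 * k) := by
      rw [mul_comm, Real.exp_nat_mul]
      exact pow_le_pow_left₀ (by norm_num) a2 k
    linarith
  have hA0 : 0 ≤ A := by rw [hA]; positivity
  have hB0 : 0 ≤ B := by rw [hB]; positivity
  have T1 : Real.exp (3 * k) * A ≤ Real.exp (-1) := by
    have a1 : n / ((d : ℝ) + 1) ≤ Real.exp L := by
      rw [div_le_iff₀ (by positivity), hnL]
      have := Real.exp_pos L
      nlinarith
    calc Real.exp (3 * k) * A ≤ Real.exp (3 * k) * (Real.exp (-(m : ℝ) / 512) * Real.exp L) := by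
          rw [hA]
          refine mul_le_mul_of_nonneg_left ?_ (Real.exp_pos _).le
          exact mul_le_mul_of_nonneg_left a1 (Real.exp_pos _).le
      _ = Real.exp (3 * k + (-(m : ℝ) / 512 + L)) := by rw [← Real.exp_add, ← Real.exp_add]
      _ ≤ Real.exp (-1) := by
          apply Real.exp_le_exp.mpr
          linarith
  have T2 : Real.exp (3 * k) * B < 1 / 2 := by
    have a1 : Real.exp (3 * k) * B = 5 * (d : ℝ) ^ 3 *
        Real.exp (3 * k + (3 * L + (-(d : ℝ) / 10))) := by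
      rw [hB, hnL, mul_pow, ← Real.exp_nat_mul, Real.exp_add, Real.exp_add]
      push_cast
      ring
    have a2 : Real.exp (3 * k + (3 * L + (-(d : ℝ) / 10))) ≤ Real.exp (-((d : ℝ) / 20)) := by
      apply Real.exp_le_exp.mpr
      linarith
    have a3 : ((d : ℝ) / 20) ^ 7 / (Nat.factorial 7 : ℕ) ≤ Real.exp ((d : ℝ) / 20) :=
      Real.pow_div_factorial_le_exp _ (by positivity) 7
    have a4 : 10 * (d : ℝ) ^ 3 < Real.exp ((d : ℝ) / 20) := by
      refine lt_of_lt_of_le ?_ a3
      have b1 : ((Nat.factorial 7 : ℕ) : ℝ) = 5040 := by norm_num [Nat.factorial]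
      rw [b1, lt_div_iff₀ (by norm_num), div_pow, lt_div_iff₀ (by norm_num)]
      have b2 : (4000 : ℝ) ^ 4 ≤ (d : ℝ) ^ 4 := pow_le_pow_left₀ (by norm_num) hd4 4
      have b3 : (0 : ℝ) < (d : ℝ) ^ 3 := by positivity
      have b4 : (d : ℝ) ^ 7 = (d : ℝ) ^ 3 * (d : ℝ) ^ 4 := by ring
      rw [b4]
      have b5 : (d : ℝ) ^ 3 * (4000 : ℝ) ^ 4 ≤ (d : ℝ) ^ 3 * (d : ℝ) ^ 4 :=
        mul_le_mul_of_nonneg_left b2 b3.le
      nlinarith
    rw [a1]
    calc 5 * (d : ℝ) ^ 3 * Real.exp (3 * k + (3 * L + (-(d : ℝ) / 10)))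
        ≤ 5 * (d : ℝ) ^ 3 * Real.exp (-((d : ℝ) / 20)) :=
          mul_le_mul_of_nonneg_left a2 (by positivity)
      _ < 1 / 2 := by
          rw [Real.exp_neg, ← div_eq_mul_inv, div_lt_iff₀ (Real.exp_pos _)]
          linarith
  have hexp1 : Real.exp (-1) < 1 / 2 := by
    rw [Real.exp_neg, inv_lt_comm₀ (Real.exp_pos _) (by norm_num)]
    have := Real.exp_one_gt_d9
    norm_num
    linarith
  have hfin : (3 : ℝ) ^ (k + 1) * gb G t + gb G (Fintype.card V - 2 * t) < 1 := by
    have a1 : (3 : ℝ) ^ (k + 1) * gb G t ≤ 3 ^ (k + 1) * (A + B) :=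
      mul_le_mul_of_nonneg_left g1 (by positivity)
    have a2 : (3 : ℝ) ^ (k + 1) * (A + B) + (A + B) ≤ Real.exp (3 * k) * (A + B) := by
      have : ((3 : ℝ) ^ (k + 1) + 1) * (A + B) ≤ Real.exp (3 * k) * (A + B) :=
        mul_le_mul_of_nonneg_right h3s (by linarith)
      linarith
    have a3 : Real.exp (3 * k) * (A + B) = Real.exp (3 * k) * A + Real.exp (3 * k) * B := by ring
    linarith
  obtain ⟨T, hTc, hT, hR⟩ := exists_T (G := G) (k + 1) t (by omega) (by omega) hfin
  exact final hT hR (by omega) v w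

end Pool.Agent.LPR
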