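import Pool.Agent.LPR.Spr

/-!
# The induced path (MP_e3976a_co)
-/

set_option autoImplicit false

set_option linter.unusedSectionVars false

namespace Pool.Agent.LPR

open Finset

variable {V : Type} {G : SimpleGraph V}

theorem edge_mem {u v : V} (p : G.Walk u v) : ∀ i, i < p.length →
    s(p.getVert i, p.getVert (i + 1)) ∈ p.edges := by
  induction p with
  | nil => intro i hi; simp at hi
  | cons h q ih =>
    intro i hi
    cases i with
    | zero =>
      rw [SimpleGraph.Walk.getVert_zero, SimpleGraph.Walk.getVert_cons_succ,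
        SimpleGraph.Walk.getVert_zero, SimpleGraph.Walk.edges_cons]
      exact List.mem_cons_self ..
    | succ i =>
      rw [SimpleGraph.Walk.getVert_cons_succ, SimpleGraph.Walk.getVert_cons_succ,
        SimpleGraph.Walk.edges_cons]
      refine List.mem_cons_of_mem _ (ih i ?_)
      rw [SimpleGraph.Walk.length_cons] at hi
      omega

/-- a shortest walk inside of `R` is an induced path -/
theorem exists_induced (R : Set V) (v w : V) (h : ∃ p : G.Walk v w, ∀ z ∈ p.support, z ∈ R) :
    ∃ p : G.Walk v w, p.IsPath ∧ (∀ z ∈ p.support, z ∈ R) ∧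
      ∀ x ∈ p.support, ∀ y ∈ p.support, G.Adj x y → s(x, y) ∈ p.edges := by
  classical
  have h1 : ∃ n, ∃ p : G.Walk v w, (∀ z ∈ p.support, z ∈ R) ∧ p.length = n := by
    obtain ⟨p, hp⟩ := h
    exact ⟨_, p, hp, rfl⟩
  obtain ⟨p0, hp0, hlen⟩ := Nat.find_spec h1
  have hmin : ∀ q : G.Walk v w, (∀ z ∈ q.support, z ∈ R) → p0.length ≤ q.length := by
    intro q hq
    rw [hlen]
    exact Nat.find_min' h1 ⟨q, hq, rfl⟩
  obtain ⟨p, hp⟩ : ∃ p, p = p0.bypass := ⟨_, rfl⟩
  have hpath : p.IsPath := by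
    rw [hp]
    exact p0.bypass_isPath
  have hpR : ∀ z ∈ p.support, z ∈ R := by
    intro z hz
    rw [hp] at hz
    exact hp0 z (p0.support_bypass_subset_support hz)
  have hpmin : ∀ q : G.Walk v w, (∀ z ∈ q.support, z ∈ R) → p.length ≤ q.length := by
    intro q hq
    rw [hp]
    exact (p0.length_bypass_le_length).trans (hmin q hq)
  have key : ∀ i j, i < j → j ≤ p.length → G.Adj (p.getVert i) (p.getVert j) → j = i + 1 := by
    intro i j hij hj hadj
    obtain ⟨q, hq⟩ : ∃ q, q = (p.take i).append (SimpleGraph.Walk.cons hadj (p.drop j)) :=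
      ⟨_, rfl⟩
    have hqR : ∀ z ∈ q.support, z ∈ R := by
      intro z hz
      rw [hq, SimpleGraph.Walk.mem_support_append_iff, SimpleGraph.Walk.support_cons,
        List.mem_cons] at hz
      rcases hz with hz | hz | hz
      · rw [SimpleGraph.Walk.support_take] at hz
        exact hpR z (List.mem_of_mem_take hz)
      · rw [hz]
        exact hpR _ (p.getVert_mem_support i)
      · rw [SimpleGraph.Walk.drop_support_eq_support_drop_min] at hz
        exact hpR z (List.mem_of_mem_drop hz)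
    have h2 := hpmin q hqR
    rw [hq, SimpleGraph.Walk.length_append, SimpleGraph.Walk.take_length,
      SimpleGraph.Walk.length_cons, SimpleGraph.Walk.drop_length] at h2
    omega
  refine ⟨p, hpath, hpR, ?_⟩
  intro x hx y hy hxy
  obtain ⟨i, hi, hil⟩ := SimpleGraph.Walk.mem_support_iff_exists_getVert.mp hx
  obtain ⟨j, hj, hjl⟩ := SimpleGraph.Walk.mem_support_iff_exists_getVert.mp hy
  rcases lt_trichotomy i j with h2 | h2 | h2
  · have h3 := key i j h2 hjl (by rw [hi, hj]; exact hxy)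
    rw [← hi, ← hj, h3]
    exact edge_mem p i (by omega)
  · exfalso
    rw [← hi, ← hj, h2] at hxy
    exact hxy.ne rfl
  · have h3 := key j i h2 hil (by rw [hi, hj]; exact hxy.symm)
    rw [← hi, ← hj, h3, Sym2.eq_swap]
    exact edge_mem p j (by omega)

variable [Fintype V] [DecidableEq V]

theorem walk_in {R : Finset V} (hR : Good G R) {v w : V} (hv : v ∈ R) (hw : w ∈ R) :
    ∃ p : G.Walk v w, ∀ z ∈ p.support, z ∈ (R : Set V) := by
  classical
  have h1 := cl_eq (A := R.filter (fun x => ∃ p : G.Walk v x, ∀ z ∈ p.support, z ∈ (R : Set V)))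
    hR.2 ⟨filter_subset _ _, ?_⟩ ?_
  · have h2 : w ∈ R.filter (fun x => ∃ p : G.Walk v x, ∀ z ∈ p.support, z ∈ (R : Set V)) := by
      rw [h1]
      exact hw
    exact (mem_filter.mp h2).2
  · intro a ha b hb hab
    rw [mem_filter] at ha ⊢
    obtain ⟨p, hp⟩ := ha.2
    refine ⟨hb, p.append (SimpleGraph.Walk.cons hab SimpleGraph.Walk.nil), ?_⟩
    intro z hz
    rw [SimpleGraph.Walk.mem_support_append_iff, SimpleGraph.Walk.support_cons,
      SimpleGraph.Walk.support_nil, List.mem_cons, List.mem_singleton] at hz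
    rcases hz with hz | hz | hz
    · exact hp z hz
    · rw [hz]
      exact ha.1
    · rw [hz]
      exact hb
  · refine ⟨v, mem_filter.mpr ⟨hv, SimpleGraph.Walk.nil, ?_⟩⟩
    intro z hz
    rw [SimpleGraph.Walk.support_nil, List.mem_singleton] at hz
    rw [hz]
    exact hv

/-- the path -/
theorem final {k : ℕ} {T : Finset V} (hT : Rob G (k + 1) T) (hR : Good G Tᶜ)
    (hTc : k + 2 < T.card) (v w : V) :
    ∃ p : G.Walk v w, p.IsPath ∧
      (∀ x ∈ p.support, ∀ y ∈ p.support, G.Adj x y → s(x, y) ∈ p.edges) ∧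
      k < Nat.card ({x : V | x ∉ p.support} : Set V) ∧
      ∀ S : Set ({x : V | x ∉ p.support} : Set V), S.ncard < k →
        ((G.induce ({x : V | x ∉ p.support} : Set V)).induce Sᶜ).Connected := by
  classical
  have hR' : Good G (Tᶜ ∪ {v, w}) := good_mono hR subset_union_left
  have hvw : ∀ z, z ∈ ({v, w} : Finset V) ↔ z = v ∨ z = w := by
    intro z
    simp
  obtain ⟨p, hpath, hpR, hch⟩ := exists_induced _ v w (walk_in hR'
    (mem_union_right _ ((hvw v).mpr (Or.inl rfl))) (mem_union_right _ ((hvw w).mpr (Or.inr rfl))))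
  -- vertices of T outside of {v, w} are not on the path
  have hTp : ∀ z ∈ T, z ≠ v → z ≠ w → z ∉ p.support := by
    intro z hz hzv hzw hzp
    have h1 := hpR z hzp
    rw [mem_coe, mem_union, mem_compl, hvw] at h1
    rcases h1 with h1 | h1 | h1
    · exact h1 hz
    · exact hzv h1
    · exact hzw h1
  have hcard2 : ({v, w} : Finset V).card ≤ 2 := card_le_two
  refine ⟨p, hpath, hch, ?_, ?_⟩
  · have h1 : ((T \ {v, w} : Finset V) : Set V) ⊆ {x : V | x ∉ p.support} := by
      intro z hz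
      rw [mem_coe, mem_sdiff, hvw] at hz
      push Not at hz
      exact hTp z hz.1 hz.2.1 hz.2.2
    have h2 : ((T \ {v, w} : Finset V) : Set V).ncard ≤ ({x : V | x ∉ p.support} : Set V).ncard :=
      Set.ncard_le_ncard h1 (Set.toFinite _)
    rw [Set.ncard_coe_finset] at h2
    rw [Nat.card_coe_set_eq]
    have h3 := le_card_sdiff ({v, w} : Finset V) T
    omega
  · intro S hS
    obtain ⟨S', hS'⟩ : ∃ S' : Finset V, ∀ z, z ∈ S' ↔
        (z = v ∨ z = w) ∨ ∃ h : z ∈ ({x : V | x ∉ p.support} : Set V), (⟨z, h⟩ : _) ∈ S := by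
      refine ⟨({v, w} : Finset V) ∪ (S.toFinite.toFinset.map ⟨Subtype.val, Subtype.val_injective⟩),
        fun z => ?_⟩
      rw [mem_union, hvw, mem_map]
      constructor
      · rintro (h | ⟨⟨x, hx⟩, h, rfl⟩)
        · exact Or.inl h
        · exact Or.inr ⟨hx, (Set.Finite.mem_toFinset _).mp h⟩
      · rintro (h | ⟨h, h'⟩)
        · exact Or.inl h
        · exact Or.inr ⟨⟨z, h⟩, (Set.Finite.mem_toFinset _).mpr h', rfl⟩
    have hS'c : S'.card ≤ k + 1 := by
      have h1 : S' ⊆ ({v, w} : Finset V) ∪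
          (S.toFinite.toFinset.map ⟨Subtype.val, Subtype.val_injective⟩) := by
        intro z hz
        rw [mem_union, hvw, mem_map]
        rcases (hS' z).mp hz with h | ⟨h, h'⟩
        · exact Or.inl h
        · exact Or.inr ⟨⟨z, h⟩, (Set.Finite.mem_toFinset _).mpr h', rfl⟩
      have h2 := (card_le_card h1).trans (card_union_le _ _)
      rw [card_map, ← Set.ncard_eq_toFinset_card S] at h2
      omega
    have hG := hT S' hS'c
    have hTS : ∀ z, z ∈ T \ S' ↔ z ∈ T ∧ z ≠ v ∧ z ≠ w ∧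
        ∀ h : z ∈ ({x : V | x ∉ p.support} : Set V), (⟨z, h⟩ : _) ∉ S := by
      intro z
      rw [mem_sdiff, hS']
      push Not
      tauto
    have hne : (T \ S').Nonempty := by
      rw [← card_pos]
      have := le_card_sdiff S' T
      omega
    -- membership
    have hin : ∀ z ∈ T \ S', ∃ h : z ∈ ({x : V | x ∉ p.support} : Set V), (⟨z, h⟩ : _) ∈ Sᶜ := by
      intro z hz
      obtain ⟨h1, h2, h3, h4⟩ := (hTS z).mp hz
      exact ⟨hTp z h1 h2 h3, h4 _⟩
    obtain ⟨z0, hz0⟩ := hne
    refine connected_of_closed _ ?_ ?_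
    · obtain ⟨h, h'⟩ := hin z0 hz0
      exact ⟨⟨⟨z0, h⟩, h'⟩⟩
    · intro A hAne hAcl
      -- the trace on T \ S'
      have hstep : ∀ a : (Sᶜ : Set ({x : V | x ∉ p.support} : Set V)), ∃ b : (Sᶜ : Set ({x : V | x ∉ p.support} : Set V)),
          ((b : ({x : V | x ∉ p.support} : Set V)) : V) ∈ T \ S' ∧
          (b = a ∨ ((G.induce ({x : V | x ∉ p.support} : Set V)).induce Sᶜ).Adj a b) := by
        rintro ⟨⟨a, ha⟩, haS⟩
        by_cases haT : a ∈ T \ S'
        · exact ⟨⟨⟨a, ha⟩, haS⟩, haT, Or.inl rfl⟩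
        · obtain ⟨z, hz, hza⟩ := hG.1 a haT
          obtain ⟨h, h'⟩ := hin z hz
          exact ⟨⟨⟨z, h⟩, h'⟩, hz, Or.inr hza.symm⟩
      have hA : (T \ S').filter (fun z => ∃ (h : z ∈ ({x : V | x ∉ p.support} : Set V))
          (h' : (⟨z, h⟩ : _) ∈ Sᶜ), (⟨⟨z, h⟩, h'⟩ : _) ∈ A) = T \ S' := by
        refine cl_eq hG.2 ⟨filter_subset _ _, ?_⟩ ?_
        · intro a ha b hb hab
          rw [mem_filter] at ha ⊢
          obtain ⟨haT, h, h', haA⟩ := ha
          obtain ⟨g, g'⟩ := hin b hb
          exact ⟨hb, g, g', hAcl _ haA ⟨⟨b, g⟩, g'⟩ hab⟩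
        · obtain ⟨a, ha⟩ := hAne
          obtain ⟨b, hb, hb'⟩ := hstep a
          refine ⟨b, mem_filter.mpr ⟨hb, b.1.2, b.2, ?_⟩⟩
          rcases hb' with h | h
          · rw [h]
            exact ha
          · exact hAcl a ha b h
      refine Set.eq_univ_of_forall fun a => ?_
      obtain ⟨b, hb, hb'⟩ := hstep a
      have hbA : b ∈ A := by
        rw [← hA] at hb
        obtain ⟨-, h, h', hbA⟩ := mem_filter.mp hb
        exact hbA
      rcases hb' with h | h
      · rw [← h]
        exact hbA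
      · exact hAcl b hbA a h.symm

end Pool.Agent.LPR
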