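import Pool.Agent.LPR.Sep

/-!
# The recursion for the mean number of components of a random set (MP_e3976a_co)
-/

set_option autoImplicit false

set_option linter.unusedSectionVars false

namespace Pool.Agent.LPR

open Finset

variable {V : Type} [Fintype V] [DecidableEq V] {G : SimpleGraph V}

open Classical in
/-- the number of components of `G[D]` adjacent to `y` -/
noncomputable def an (G : SimpleGraph V) (D : Finset V) (y : V) : ℕ :=
  ((comps G D).filter (fun C => Ad G C y)).card

open Classical in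
theorem sn_eq (D : Finset V) :
    sn G D = ∑ y ∈ Dᶜ, ((comps G D).filter (fun C => y ∈ sh G D C)).card := by
  unfold sn
  have h1 : ∀ C, (sh G D C).card = ∑ y ∈ Dᶜ, if y ∈ sh G D C then 1 else 0 := by
    intro C
    rw [← sum_filter, card_eq_sum_ones]
    refine sum_congr ?_ fun _ _ => rfl
    ext y
    rw [mem_filter, mem_compl]
    exact ⟨fun h => ⟨(mem_sh.mp h).1, h⟩, fun h => h.2⟩
  simp only [h1]
  rw [sum_comm]
  refine sum_congr rfl fun y _ => ?_
  rw [card_eq_sum_ones, sum_filter]

theorem sn_le_an (D : Finset V) (y : V) :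
    ((comps G D).filter (fun C => y ∈ sh G D C)).card ≤ 2 * (an G D y - 1) := by
  classical
  by_cases h : ∃ C ∈ comps G D, y ∈ sh G D C
  · obtain ⟨C, hC, hy⟩ := h
    obtain ⟨-, h1, C', hC', hne, h2⟩ := mem_sh.mp hy
    have h3 : 2 ≤ an G D y := by
      unfold an
      have h4 : 1 < ((comps G D).filter (fun C => Ad G C y)).card := by
        rw [one_lt_card]
        exact ⟨C, mem_filter.mpr ⟨hC, h1⟩, C', mem_filter.mpr ⟨hC', h2⟩, hne.symm⟩
      omega
    have h5 : ((comps G D).filter (fun C => y ∈ sh G D C)).card ≤ an G D y := by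
      unfold an
      refine card_le_card fun C hC => ?_
      rw [mem_filter] at hC ⊢
      exact ⟨hC.1, (mem_sh.mp hC.2).2.1⟩
    omega
  · have h6 : (comps G D).filter (fun C => y ∈ sh G D C) = ∅ := by
      rw [filter_eq_empty_iff]
      intro C hC hy
      exact h ⟨C, hC, hy⟩
    rw [h6]
    simp

open Classical in
theorem step (D : Finset V) :
    ∑ y ∈ Dᶜ, ((comps G (insert y D)).card : ℝ) + (sn G D : ℝ) / 2 ≤
      (Dᶜ.card : ℝ) * (comps G D).card +
        Fintype.card V * (if Dom G D then 0 else 1) := by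
  have h1 : ∀ y, ((comps G (insert y D)).card : ℝ) + an G D y ≤ (comps G D).card + 1 := by
    intro y
    have := comps_insert (G := G) D y
    unfold an
    exact_mod_cast this
  have h2 : (sn G D : ℝ) / 2 ≤ ∑ y ∈ Dᶜ, ((an G D y - 1 : ℕ) : ℝ) := by
    rw [sn_eq]
    push_cast
    rw [sum_div]
    refine sum_le_sum fun y _ => ?_
    have := sn_le_an (G := G) D y
    have h3 : (((comps G D).filter (fun C => y ∈ sh G D C)).card : ℝ) ≤
        2 * ((an G D y - 1 : ℕ) : ℝ) := by exact_mod_cast this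
    linarith
  have h4 : ∀ y ∈ Dᶜ, ((an G D y - 1 : ℕ) : ℝ) ≤ (an G D y : ℝ) - 1 +
      (if Dom G D then 0 else 1) := by
    intro y hy
    by_cases h5 : 1 ≤ an G D y
    · rw [Nat.cast_sub h5]
      have : (0 : ℝ) ≤ if Dom G D then 0 else 1 := by split_ifs <;> norm_num
      push_cast
      linarith
    · have h6 : an G D y = 0 := by omega
      have h7 : ¬ Dom G D := by
        intro hdom
        obtain ⟨z, hz, hzy⟩ := hdom y (mem_compl.mp hy)
        obtain ⟨C, hC, hzC⟩ := exists_comp (G := G) hz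
        unfold an at h6
        rw [card_eq_zero, filter_eq_empty_iff] at h6
        exact h6 (mem_comps.mpr hC) ⟨z, hzC, hzy⟩
      rw [if_neg h7, h6]
      norm_num
  have h8 := sum_le_sum h4
  rw [sum_add_distrib, sum_sub_distrib, sum_const, sum_const, nsmul_eq_mul, nsmul_eq_mul,
    mul_one] at h8
  have h9 : ∑ y ∈ Dᶜ, ((comps G (insert y D)).card : ℝ) ≤
      ∑ y ∈ Dᶜ, (((comps G D).card : ℝ) + 1 - an G D y) :=
    sum_le_sum fun y _ => by linarith [h1 y]
  rw [sum_sub_distrib, sum_const, nsmul_eq_mul] at h9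
  have h10 : (Dᶜ.card : ℝ) * (if Dom G D then 0 else 1) ≤
      Fintype.card V * (if Dom G D then 0 else 1) := by
    refine mul_le_mul_of_nonneg_right ?_ (by split_ifs <;> norm_num)
    exact_mod_cast card_le_univ _
  linarith

/-! ### Averages -/

/-- the average over all sets of size `i` -/
noncomputable def av (i : ℕ) (f : Finset V → ℝ) : ℝ :=
  (∑ D ∈ powersetCard i (univ : Finset V), f D) / ((Fintype.card V).choose i : ℝ)

theorem choose_pos' {i : ℕ} (hi : i ≤ Fintype.card V) :
    (0 : ℝ) < ((Fintype.card V).choose i : ℝ) := by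
  exact_mod_cast Nat.choose_pos hi

theorem av_sum {i : ℕ} (hi : i ≤ Fintype.card V) (f : Finset V → ℝ) :
    ∑ D ∈ powersetCard i (univ : Finset V), f D = ((Fintype.card V).choose i : ℝ) * av i f := by
  unfold av
  have := choose_pos' hi
  field_simp

theorem av_nonneg (i : ℕ) (f : Finset V → ℝ) (hf : ∀ D, 0 ≤ f D) : 0 ≤ av i f :=
  div_nonneg (sum_nonneg fun D _ => hf D) (Nat.cast_nonneg _)

theorem av_mono (i : ℕ) (f g : Finset V → ℝ) (hf : ∀ D, D.card = i → f D ≤ g D) :
    av i f ≤ av i g := by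
  refine div_le_div_of_nonneg_right (sum_le_sum fun D hD => hf D ?_) (Nat.cast_nonneg _)
  exact (mem_powersetCard.mp hD).2

theorem av_add (i : ℕ) (f g : Finset V → ℝ) : av i (fun D => f D + g D) = av i f + av i g := by
  unfold av
  rw [sum_add_distrib, add_div]

theorem av_const_mul (i : ℕ) (c : ℝ) (f : Finset V → ℝ) :
    av i (fun D => c * f D) = c * av i f := by
  unfold av
  rw [← mul_sum, mul_div_assoc]

theorem av_one {i : ℕ} (hi : i ≤ Fintype.card V) : av i (fun _ : Finset V => (1 : ℝ)) = 1 := by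
  unfold av
  rw [sum_const, card_powersetCard, card_univ, nsmul_eq_mul, mul_one]
  exact div_self (choose_pos' hi).ne'

theorem choose_succ' (i : ℕ) (hi : i < Fintype.card V) :
    ((i : ℝ) + 1) * ((Fintype.card V).choose (i + 1) : ℝ) =
      ((Fintype.card V : ℝ) - i) * ((Fintype.card V).choose i : ℝ) := by
  have h1 := Nat.choose_succ_right_eq (Fintype.card V) i
  have h2 : (((Fintype.card V).choose (i + 1) * (i + 1) : ℕ) : ℝ) =
      (((Fintype.card V).choose i * (Fintype.card V - i) : ℕ) : ℝ) := by exact_mod_cast h1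
  push_cast [Nat.cast_sub hi.le] at h2
  linarith

open Classical in
/-- mean number of components minus one -/
noncomputable def xx (G : SimpleGraph V) (i : ℕ) : ℝ :=
  av i (fun D : Finset V => ((comps G D).card : ℝ)) - 1

noncomputable def ss (G : SimpleGraph V) (i : ℕ) : ℝ := av i (fun D : Finset V => (sn G D : ℝ))

open Classical in
/-- probability of not dominating -/
noncomputable def bb (G : SimpleGraph V) (i : ℕ) : ℝ :=
  av i (fun D : Finset V => if Dom G D then (0 : ℝ) else 1)

theorem ss_nonneg (i : ℕ) : 0 ≤ ss G i := av_nonneg i _ fun D => Nat.cast_nonneg _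

theorem bb_nonneg (i : ℕ) : 0 ≤ bb G i :=
  av_nonneg i _ fun D => by split_ifs <;> norm_num

theorem xx_nonneg {i : ℕ} (hi : i ≤ Fintype.card V) (h1 : 1 ≤ i) : 0 ≤ xx G i := by
  unfold xx
  have := av_mono i (fun _ : Finset V => (1 : ℝ)) (fun D => ((comps G D).card : ℝ)) (by
    intro D hD
    have : D.Nonempty := by
      rw [← card_pos]
      omega
    exact_mod_cast one_le_comps (G := G) this)
  rw [av_one hi] at this
  linarith

theorem rec_a {m : ℕ} (hm : Cn G m) {i : ℕ} (hi : i < Fintype.card V) :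
    (m : ℝ) * (((i : ℝ) + 1) * xx G i) ≤ ((i : ℝ) + 1) * ss G i +
      ((Fintype.card V : ℝ) - i) * ss G (i + 1) +
      m * Fintype.card V * (((i : ℝ) + 1) * bb G i) := by
  classical
  have h1 : ∑ D ∈ powersetCard i (univ : Finset V), (m : ℝ) * (((comps G D).card : ℝ) - 1) ≤
      ∑ D ∈ powersetCard i (univ : Finset V), ((sn G D : ℝ) + ln G D +
      m * Fintype.card V * (if Dom G D then 0 else 1)) :=
    sum_le_sum fun D _ => sep_all hm D
  rw [sum_add_distrib, sum_add_distrib, ← mul_sum, ← mul_sum, sum_sub_distrib] at h1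
  have h2 : ∑ D ∈ powersetCard i (univ : Finset V), (ln G D : ℝ) ≤
      ∑ D ∈ powersetCard (i + 1) (univ : Finset V), (sn G D : ℝ) := by
    exact_mod_cast swap (G := G) i
  have h3 : ∑ D ∈ powersetCard i (univ : Finset V), ((comps G D).card : ℝ) =
      ((Fintype.card V).choose i : ℝ) * (xx G i + 1) := by
    rw [av_sum hi.le]
    unfold xx
    ring
  have h4 : ∑ D ∈ powersetCard i (univ : Finset V), (1 : ℝ) = ((Fintype.card V).choose i : ℝ) := by
    rw [sum_const, card_powersetCard, card_univ, nsmul_eq_mul, mul_one]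
  have g5 : ∑ D ∈ powersetCard i (univ : Finset V), (sn G D : ℝ) =
      ((Fintype.card V).choose i : ℝ) * ss G i := av_sum hi.le _
  have g6 : ∑ D ∈ powersetCard i (univ : Finset V), (if Dom G D then (0 : ℝ) else 1) =
      ((Fintype.card V).choose i : ℝ) * bb G i := av_sum hi.le _
  rw [h3, h4, g5, g6] at h1
  have h5 : ∑ D ∈ powersetCard (i + 1) (univ : Finset V), (sn G D : ℝ) =
      ((Fintype.card V).choose (i + 1) : ℝ) * ss G (i + 1) := av_sum (by omega) _
  rw [h5] at h2
  have hc := choose_pos' (V := V) hi.le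
  have hs := choose_succ' (V := V) i hi
  have h6 : ((Fintype.card V).choose i : ℝ) * ((m : ℝ) * (((i : ℝ) + 1) * xx G i)) ≤
      ((Fintype.card V).choose i : ℝ) * (((i : ℝ) + 1) * ss G i +
      ((Fintype.card V : ℝ) - i) * ss G (i + 1) +
      m * Fintype.card V * (((i : ℝ) + 1) * bb G i)) := by
    have hi0 : (0 : ℝ) ≤ (i : ℝ) + 1 := by positivity
    have h7 := mul_le_mul_of_nonneg_left h1 hi0
    have h8 := mul_le_mul_of_nonneg_left h2 hi0
    have h9 : ((i : ℝ) + 1) * (((Fintype.card V).choose (i + 1) : ℝ) * ss G (i + 1)) =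
        ((Fintype.card V : ℝ) - i) * ((Fintype.card V).choose i : ℝ) * ss G (i + 1) := by
      rw [← mul_assoc, hs]
    rw [h9] at h8
    linarith
  exact le_of_mul_le_mul_left h6 hc

theorem rec_b {i : ℕ} (hi : i < Fintype.card V) :
    ((Fintype.card V : ℝ) - i) * xx G (i + 1) + ss G i / 2 ≤
      ((Fintype.card V : ℝ) - i) * xx G i + Fintype.card V * bb G i := by
  classical
  have h1 : ∑ D ∈ powersetCard i (univ : Finset V),
      (∑ y ∈ Dᶜ, ((comps G (insert y D)).card : ℝ) + (sn G D : ℝ) / 2) ≤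
      ∑ D ∈ powersetCard i (univ : Finset V), (((Fintype.card V : ℝ) - i) * (comps G D).card +
        Fintype.card V * (if Dom G D then 0 else 1)) := by
    refine sum_le_sum fun D hD => ?_
    have h2 := step (G := G) D
    have h3 : (Dᶜ.card : ℝ) = (Fintype.card V : ℝ) - i := by
      rw [card_compl, (mem_powersetCard.mp hD).2, Nat.cast_sub hi.le]
    rwa [h3] at h2
  rw [sum_add_distrib, sum_add_distrib, ← mul_sum, ← mul_sum, ← sum_div,
    sum_insert_pairs (fun D => ((comps G D).card : ℝ)) i] at h1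
  have hs := choose_succ' (V := V) i hi
  have hc := choose_pos' (V := V) hi.le
  have h3 : ∀ j ≤ Fintype.card V,
      ∑ D ∈ powersetCard j (univ : Finset V), ((comps G D).card : ℝ) =
      ((Fintype.card V).choose j : ℝ) * (xx G j + 1) := by
    intro j hj
    rw [av_sum hj]
    unfold xx
    ring
  rw [h3 i hi.le, h3 (i + 1) (by omega), av_sum hi.le, av_sum hi.le] at h1
  have e1 : av i (fun D : Finset V => (sn G D : ℝ)) = ss G i := rfl
  have e2 : av i (fun D : Finset V => if Dom G D then (0 : ℝ) else 1) = bb G i := rfl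
  rw [e1, e2, ← mul_assoc, hs] at h1
  have h6 : ((Fintype.card V).choose i : ℝ) * (((Fintype.card V : ℝ) - i) * xx G (i + 1) +
      ss G i / 2) ≤ ((Fintype.card V).choose i : ℝ) *
      (((Fintype.card V : ℝ) - i) * xx G i + Fintype.card V * bb G i) := by
    linarith
  exact le_of_mul_le_mul_left h6 hc

/-- the two-step recursion -/
theorem rec2 {m : ℕ} (hm : Cn G m) (hmn : m ≤ Fintype.card V) {i : ℕ}
    (hi : i + 1 < Fintype.card V) (hi8 : Fintype.card V ≤ 8 * (i + 1)) {β : ℝ}
    (hb : bb G i ≤ β) (hb' : bb G (i + 1) ≤ β) :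
    xx G (i + 2) ≤ (1 - m / (16 * (Fintype.card V : ℝ))) * xx G i +
      3 * Fintype.card V * β := by
  have ha := rec_a hm (show i < Fintype.card V by omega)
  have h1 := rec_b (G := G) (show i < Fintype.card V by omega)
  have h2 := rec_b (G := G) (i := i + 1) hi
  have hs0 := ss_nonneg (G := G) i
  have hs1 := ss_nonneg (G := G) (i + 1)
  have hb0 := bb_nonneg (G := G) i
  have hb1 := bb_nonneg (G := G) (i + 1)
  obtain ⟨n, hn⟩ : ∃ n : ℝ, n = (Fintype.card V : ℝ) := ⟨_, rfl⟩
  have hin : (i : ℝ) + 1 + 1 ≤ n := by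
    rw [hn]
    exact_mod_cast (by omega : i + 1 + 1 ≤ Fintype.card V)
  have hi8' : n ≤ 8 * ((i : ℝ) + 1) := by
    rw [hn]
    exact_mod_cast hi8
  have hmn' : (m : ℝ) ≤ n := by
    rw [hn]
    exact_mod_cast hmn
  have hm0 : (0 : ℝ) ≤ m := Nat.cast_nonneg m
  have hi0 : (0 : ℝ) ≤ (i : ℝ) := Nat.cast_nonneg i
  rw [← hn] at ha h1 h2 ⊢
  push_cast at h2
  have hn0 : 0 < n := by linarith
  -- one step
  have s1 : xx G (i + 1) ≤ xx G i - ss G i / (2 * n) + n * bb G i := by
    have hp : 1 ≤ n - i := by linarith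
    have e1 : ss G i / (2 * n) ≤ ss G i / 2 / (n - i) := by
      rw [div_div]
      exact div_le_div_of_nonneg_left hs0 (by linarith) (by linarith)
    have e2 : n * bb G i / (n - i) ≤ n * bb G i := div_le_self (by positivity) hp
    have e3 : xx G (i + 1) ≤ xx G i - ss G i / 2 / (n - i) + n * bb G i / (n - i) := by
      have : xx G i - ss G i / 2 / (n - i) + n * bb G i / (n - i) =
          ((n - i) * xx G i - ss G i / 2 + n * bb G i) / (n - i) := by
        field_simp
      rw [this, le_div_iff₀ (by linarith)]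
      linarith
    linarith
  have s2 : xx G (i + 1 + 1) ≤ xx G (i + 1) - ss G (i + 1) / (2 * n) + n * bb G (i + 1) := by
    have hp : 1 ≤ n - (i + 1) := by linarith
    have e1 : ss G (i + 1) / (2 * n) ≤ ss G (i + 1) / 2 / (n - (i + 1)) := by
      rw [div_div]
      exact div_le_div_of_nonneg_left hs1 (by linarith) (by linarith)
    have e2 : n * bb G (i + 1) / (n - (i + 1)) ≤ n * bb G (i + 1) :=
      div_le_self (by positivity) hp
    have e3 : xx G (i + 1 + 1) ≤ xx G (i + 1) - ss G (i + 1) / 2 / (n - (i + 1)) +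
        n * bb G (i + 1) / (n - (i + 1)) := by
      have : xx G (i + 1) - ss G (i + 1) / 2 / (n - (i + 1)) +
          n * bb G (i + 1) / (n - (i + 1)) =
          ((n - (i + 1)) * xx G (i + 1) - ss G (i + 1) / 2 + n * bb G (i + 1)) /
            (n - (i + 1)) := by
        have : n - ((i : ℝ) + 1) ≠ 0 := by linarith
        field_simp
      rw [this, le_div_iff₀ (by linarith)]
      linarith
    linarith
  have s3 : m * xx G i ≤ ss G i + 8 * ss G (i + 1) + m * n * bb G i := by
    have hp : 0 < (i : ℝ) + 1 := by linarith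
    have e1 : (n - i) * ss G (i + 1) ≤ 8 * ((i : ℝ) + 1) * ss G (i + 1) :=
      mul_le_mul_of_nonneg_right (by linarith) hs1
    have e2 : ((i : ℝ) + 1) * (m * xx G i) ≤ ((i : ℝ) + 1) * (ss G i + 8 * ss G (i + 1) +
        m * n * bb G i) := by linarith
    exact le_of_mul_le_mul_left e2 hp
  have s4 : m * xx G i / (16 * n) ≤ (ss G i + ss G (i + 1)) / (2 * n) + m * bb G i / 16 := by
    have e1 : m * xx G i / (16 * n) ≤ (ss G i + 8 * ss G (i + 1) + m * n * bb G i) / (16 * n) :=
      div_le_div_of_nonneg_right s3 (by positivity)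
    have e2 : (ss G i + 8 * ss G (i + 1) + m * n * bb G i) / (16 * n) ≤
        (8 * (ss G i + ss G (i + 1)) + m * n * bb G i) / (16 * n) :=
      div_le_div_of_nonneg_right (by linarith) (by positivity)
    have e3 : (8 * (ss G i + ss G (i + 1)) + m * n * bb G i) / (16 * n) =
        (ss G i + ss G (i + 1)) / (2 * n) + m * bb G i / 16 := by
      field_simp
      ring
    linarith
  have s5 : m * bb G i / 16 ≤ n * β := by
    have e1 : m * bb G i ≤ n * β := mul_le_mul hmn' hb hb0 hn0.le
    have e2 : 0 ≤ n * β := le_trans (by positivity) e1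
    linarith
  have s6 : n * bb G i ≤ n * β := mul_le_mul_of_nonneg_left hb hn0.le
  have s7 : n * bb G (i + 1) ≤ n * β := mul_le_mul_of_nonneg_left hb' hn0.le
  have s8 : ss G i / (2 * n) + ss G (i + 1) / (2 * n) = (ss G i + ss G (i + 1)) / (2 * n) := by
    rw [add_div]
  have s9 : (1 - m / (16 * n)) * xx G i = xx G i - m * xx G i / (16 * n) := by ring
  rw [s9]
  show xx G (i + 1 + 1) ≤ _
  linarith

/-- the one-step bound -/
theorem rec1 {i : ℕ} (hi : i < Fintype.card V) {β : ℝ} (hb : bb G i ≤ β) :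
    xx G (i + 1) ≤ xx G i + Fintype.card V * β := by
  have h1 := rec_b (G := G) hi
  have hs0 := ss_nonneg (G := G) i
  have hb0 := bb_nonneg (G := G) i
  obtain ⟨n, hn⟩ : ∃ n : ℝ, n = (Fintype.card V : ℝ) := ⟨_, rfl⟩
  have hin : (i : ℝ) + 1 ≤ n := by
    rw [hn]
    exact_mod_cast (by omega : i + 1 ≤ Fintype.card V)
  rw [← hn] at h1 ⊢
  have hi0 : (0 : ℝ) ≤ (i : ℝ) := Nat.cast_nonneg i
  have hn0 : 0 < n := by linarith
  have hp : 1 ≤ n - i := by linarith
  have e2 : n * bb G i / (n - i) ≤ n * bb G i := div_le_self (by positivity) hp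
  have e3 : xx G (i + 1) ≤ xx G i + n * bb G i / (n - i) := by
    have : xx G i + n * bb G i / (n - i) = ((n - i) * xx G i + n * bb G i) / (n - i) := by
      field_simp
    rw [this, le_div_iff₀ (by linarith)]
    linarith
  have s6 : n * bb G i ≤ n * β := mul_le_mul_of_nonneg_left hb hn0.le
  linarith

end Pool.Agent.LPR
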