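import Pool.Agent.LPR.Count

/-!
# Separation: every component of a dominating set has many connectors (MP_e3976a_co)
-/

set_option autoImplicit false

set_option linter.unusedSectionVars false

namespace Pool.Agent.LPR

open Finset

variable {V : Type} [Fintype V] [DecidableEq V] {G : SimpleGraph V}

/-- connectivity in terms of closed sets -/
def Cn (G : SimpleGraph V) (m : ℕ) : Prop :=
  ∀ S : Finset V, S.card < m → ∀ A : Finset V, (∀ a ∈ A, a ∉ S) → A.Nonempty →
    (∀ a ∈ A, ∀ b, b ∉ S → G.Adj a b → b ∈ A) → ∀ x, x ∉ S → x ∈ A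

theorem cn_of_connected (m : ℕ)
    (h : ∀ S : Set V, S.ncard < m → (G.induce Sᶜ).Connected) : Cn G m := by
  intro S hS A hAS hne hcl x hx
  have h1 := h (S : Set V) (by rwa [Set.ncard_coe_finset])
  have h2 := closed_of_connected _ h1 {z | (z : V) ∈ A} ?_ ?_
  · have h3 : (⟨x, by simpa using hx⟩ : ((S : Set V)ᶜ : Set V)) ∈
        {z : ((S : Set V)ᶜ : Set V) | (z : V) ∈ A} := by
      rw [h2]
      exact Set.mem_univ _
    exact h3
  · obtain ⟨a, ha⟩ := hne
    exact ⟨⟨a, by simpa using hAS a ha⟩, ha⟩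
  · rintro ⟨a, ha'⟩ ha ⟨b, hb'⟩ hab
    exact hcl a ha b (by simpa using hb') hab

/-- every component of a dominating set has many connectors -/
theorem sep {m : ℕ} (hm : Cn G m) {D : Finset V} (hdom : Dom G D) {C C' : Finset V}
    (hC : IsC G D C) (hC' : IsC G D C') (hne : C' ≠ C) :
    m ≤ (sh G D C).card + (lo G D C).card := by
  classical
  by_contra hlt
  rw [not_le] at hlt
  have hZ : (sh G D C ∪ lo G D C).card < m := lt_of_le_of_lt (card_union_le _ _) hlt
  have hZD : ∀ z ∈ D, z ∉ sh G D C ∪ lo G D C := by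
    intro z hz hzZ
    rcases mem_union.mp hzZ with h | h
    · exact (mem_sh.mp h).1 hz
    · exact (mem_lo.mp h).1 hz
  -- the neighbours in D of a vertex adjacent to C and not in sh
  have hD1 : ∀ x, x ∉ D → x ∉ sh G D C → Ad G C x → ∀ z ∈ D, G.Adj z x → z ∈ C := by
    intro x hx hxs hxC z hz hzx
    by_contra hzC
    obtain ⟨C'', hC'', hzC''⟩ := exists_comp (G := G) hz
    refine hxs (mem_sh.mpr ⟨hx, hxC, C'', mem_comps.mpr hC'', ?_, z, hzC'', hzx⟩)
    intro h
    rw [h] at hzC''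
    exact hzC hzC''
  set A : Finset V := C ∪ univ.filter (fun x => x ∉ D ∧ x ∉ sh G D C ∪ lo G D C ∧ Ad G C x) with hA
  have hmemA : ∀ x, x ∈ A ↔ x ∈ C ∨ (x ∉ D ∧ x ∉ sh G D C ∪ lo G D C ∧ Ad G C x) := by
    intro x
    rw [hA, mem_union, mem_filter]
    simp
  have key := hm _ hZ A ?_ ?_ ?_
  · obtain ⟨z, hz⟩ := hC'.2.1
    have hzD : z ∈ D := hC'.1.1 hz
    rcases (hmemA z).mp (key z (hZD z hzD)) with h | h
    · exact hne (hC'.eq_of_mem hC hz h)
    · exact h.1 hzD
  · intro a ha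
    rcases (hmemA a).mp ha with h | h
    · exact hZD a (hC.1.1 h)
    · exact h.2.1
  · obtain ⟨z, hz⟩ := hC.2.1
    exact ⟨z, (hmemA z).mpr (Or.inl hz)⟩
  · intro a ha b hb hab
    rw [hmemA]
    rcases (hmemA a).mp ha with h | ⟨haD, haZ, haC⟩
    · by_cases hbD : b ∈ D
      · exact Or.inl (hC.1.2 a h b hbD hab)
      · exact Or.inr ⟨hbD, hb, a, h, hab⟩
    · have has : a ∉ sh G D C := fun h => haZ (mem_union_left _ h)
      have hal : a ∉ lo G D C := fun h => haZ (mem_union_right _ h)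
      by_cases hbD : b ∈ D
      · exact Or.inl (hD1 a haD has haC b hbD hab.symm)
      · refine Or.inr ⟨hbD, hb, ?_⟩
        by_contra hbC
        obtain ⟨z, hz, hzb⟩ := hdom b hbD
        obtain ⟨C'', hC'', hzC''⟩ := exists_comp (G := G) hz
        refine hal (mem_lo.mpr ⟨haD, haC, hD1 a haD has haC, b, hbD, hab, hbC, C'',
          mem_comps.mpr hC'', ?_, z, hzC'', hzb⟩)
        intro h
        rw [h] at hzC''
        exact hbC ⟨z, hzC'', hzb⟩

theorem sep_sum {m : ℕ} (hm : Cn G m) {D : Finset V} (hdom : Dom G D)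
    (h2 : 2 ≤ (comps G D).card) : m * (comps G D).card ≤ sn G D + ln G D := by
  unfold sn ln
  rw [← sum_add_distrib, mul_comm, ← smul_eq_mul]
  refine card_nsmul_le_sum _ _ _ fun C hC => ?_
  obtain ⟨C', hC', hne⟩ := exists_mem_ne (by omega : 1 < (comps G D).card) C
  exact sep hm hdom (mem_comps.mp hC) (mem_comps.mp hC') hne

theorem comps_card_le (D : Finset V) : (comps G D).card ≤ D.card := by
  classical
  have h1 : ∀ C ∈ comps G D, ∃ x, x ∈ C := fun C hC => (mem_comps.mp hC).2.1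
  rcases (comps G D).eq_empty_or_nonempty with he | ⟨C₀, hC₀⟩
  · rw [he]
    simp
  obtain ⟨x₀, -⟩ := h1 C₀ hC₀
  have : Nonempty V := ⟨x₀⟩
  choose! f hf using h1
  refine card_le_card_of_injOn f ?_ ?_
  · intro C hC
    exact (mem_comps.mp hC).1.1 (hf C hC)
  · intro C hC C' hC' h
    refine (mem_comps.mp hC).eq_of_mem (mem_comps.mp hC') (hf C hC) ?_
    rw [h]
    exact hf C' hC'

theorem one_le_comps {D : Finset V} (hD : D.Nonempty) : 1 ≤ (comps G D).card := by
  obtain ⟨x, hx⟩ := hD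
  obtain ⟨C, hC, -⟩ := exists_comp (G := G) hx
  exact card_pos.mpr ⟨C, mem_comps.mpr hC⟩

open Classical in
/-- the inequality for all sets -/
theorem sep_all {m : ℕ} (hm : Cn G m) (D : Finset V) :
    (m : ℝ) * ((comps G D).card - 1) ≤ (sn G D : ℝ) + ln G D +
      m * Fintype.card V * (if Dom G D then 0 else 1) := by
  have hsl : (0 : ℝ) ≤ (sn G D : ℝ) + ln G D := by positivity
  have hm0 : (0 : ℝ) ≤ m := Nat.cast_nonneg m
  by_cases hdom : Dom G D
  · rw [if_pos hdom, mul_zero, add_zero]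
    by_cases h2 : 2 ≤ (comps G D).card
    · have h3 := sep_sum hm hdom h2
      have h4 : (m : ℝ) * (comps G D).card ≤ (sn G D : ℝ) + ln G D := by exact_mod_cast h3
      nlinarith
    · have h3 : ((comps G D).card : ℝ) ≤ 1 := by exact_mod_cast (by omega : (comps G D).card ≤ 1)
      nlinarith
  · rw [if_neg hdom, mul_one]
    have h3 : ((comps G D).card : ℝ) ≤ Fintype.card V := by
      exact_mod_cast le_trans (comps_card_le D) (card_le_univ D)
    nlinarith

end Pool.Agent.LPR
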