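import Pool.Agent.LPR.Init

/-!
# Sprinkling: robust connected dominating sets (MP_e3976a_co)
-/

set_option autoImplicit false

set_option linter.unusedSectionVars false

namespace Pool.Agent.LPR

open Finset

variable {V : Type} [Fintype V] [DecidableEq V] {G : SimpleGraph V}

/-- dominating with at most one component -/
def Good (G : SimpleGraph V) (D : Finset V) : Prop := Dom G D ∧ (comps G D).card ≤ 1

/-- still good after deleting `s` vertices -/
def Rob (G : SimpleGraph V) (s : ℕ) (T : Finset V) : Prop :=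
  ∀ S' : Finset V, S'.card ≤ s → Good G (T \ S')

theorem cl_eq {D A : Finset V} (h : (comps G D).card ≤ 1) (hA : Cl G D A) (hne : A.Nonempty) :
    A = D := by
  refine Subset.antisymm hA.1 fun y hy => ?_
  obtain ⟨x, hx⟩ := hne
  obtain ⟨C, hC, hxC⟩ := exists_comp (G := G) (hA.1 hx)
  obtain ⟨C', hC', hyC'⟩ := exists_comp (G := G) hy
  have hCC : C = C' := card_le_one.mp h C (mem_comps.mpr hC) C' (mem_comps.mpr hC')
  have h1 : A ∩ C = C := hC.2.2 _ inter_subset_right (hA.inter hC.1)
    ⟨x, mem_inter.mpr ⟨hx, hxC⟩⟩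
  have h2 : y ∈ A ∩ C := by
    rw [h1, hCC]
    exact hyC'
  exact (mem_inter.mp h2).1

theorem good_mono {T' T : Finset V} (h : Good G T') (hs : T' ⊆ T) : Good G T := by
  refine ⟨fun y hy => ?_, ?_⟩
  · obtain ⟨z, hz, hzy⟩ := h.1 y fun h' => hy (hs h')
    exact ⟨z, hs hz, hzy⟩
  · have key : ∀ C, IsC G T C → C ∩ T' = T' := by
      intro C hC
      refine cl_eq h.2 ⟨inter_subset_right, ?_⟩ ?_
      · intro a ha b hb hab
        rw [mem_inter] at ha ⊢
        exact ⟨hC.1.2 a ha.1 b (hs hb) hab, hb⟩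
      · obtain ⟨x, hx⟩ := hC.2.1
        by_cases hxT : x ∈ T'
        · exact ⟨x, mem_inter.mpr ⟨hx, hxT⟩⟩
        · obtain ⟨z, hz, hzx⟩ := h.1 x hxT
          exact ⟨z, mem_inter.mpr ⟨hC.1.2 x hx z (hs hz) hzx.symm, hz⟩⟩
    rw [card_le_one]
    intro C hC C' hC'
    have h1 := key C (mem_comps.mp hC)
    have h2 := key C' (mem_comps.mp hC')
    obtain ⟨x, hx⟩ := (mem_comps.mp hC).2.1
    have hne : T'.Nonempty := by
      by_cases hxT : x ∈ T'
      · exact ⟨x, hxT⟩
      · obtain ⟨z, hz, -⟩ := h.1 x hxT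
        exact ⟨z, hz⟩
    obtain ⟨z, hz⟩ := hne
    refine (mem_comps.mp hC).eq_of_mem (mem_comps.mp hC') (x := z) ?_ ?_
    · rw [← h1] at hz
      exact (mem_inter.mp hz).1
    · rw [← h2] at hz
      exact (mem_inter.mp hz).1

open Classical in
/-- probability of not being good -/
noncomputable def gb (G : SimpleGraph V) (i : ℕ) : ℝ :=
  av i (fun D : Finset V => if Good G D then (0 : ℝ) else 1)

open Classical in
theorem gb_le {i : ℕ} (hi : i ≤ Fintype.card V) (h1 : 1 ≤ i) : gb G i ≤ xx G i + bb G i := by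
  have h2 : gb G i ≤ av i (fun D : Finset V => (((comps G D).card : ℝ) +
      ((-1) * 1 + (if Dom G D then (0 : ℝ) else 1)))) := by
    refine av_mono i _ _ fun D hD => ?_
    have hDne : D.Nonempty := by
      rw [← card_pos]
      omega
    have h3 : (1 : ℝ) ≤ (comps G D).card := by exact_mod_cast one_le_comps (G := G) hDne
    by_cases hg : Good G D
    · rw [if_pos hg]
      have : (0 : ℝ) ≤ if Dom G D then 0 else 1 := by split_ifs <;> norm_num
      linarith
    · rw [if_neg hg]
      by_cases hd : Dom G D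
      · rw [if_pos hd]
        have h4 : 2 ≤ (comps G D).card := by
          by_contra h5
          exact hg ⟨hd, by omega⟩
        have h5 : (2 : ℝ) ≤ (comps G D).card := by exact_mod_cast h4
        linarith
      · rw [if_neg hd]
        linarith
  rw [av_add, av_add, av_const_mul, av_one hi] at h2
  unfold xx bb
  linarith

theorem choose3 (t : ℕ) : ∀ s, 2 * s ≤ t → (2 * t).choose t ≤ 3 ^ s * (2 * t - s).choose t := by
  intro s
  induction s with
  | zero => intro _; simp
  | succ s ih =>
    intro hs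
    have ih' := ih (by omega)
    obtain ⟨N, hN⟩ : ∃ N, N = 2 * t - (s + 1) := ⟨_, rfl⟩
    have hN1 : 2 * t - s = N + 1 := by omega
    rw [hN1] at ih'
    rw [← hN]
    have h1 := Nat.choose_mul_succ_eq N t
    have h2 : N + 1 ≤ 3 * (N + 1 - t) := by omega
    have h3 : (N + 1).choose t * (N + 1) ≤ 3 * N.choose t * (N + 1) := by
      calc (N + 1).choose t * (N + 1) ≤ (N + 1).choose t * (3 * (N + 1 - t)) :=
            Nat.mul_le_mul_left _ h2
        _ = 3 * ((N + 1).choose t * (N + 1 - t)) := by ring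
        _ = 3 * N.choose t * (N + 1) := by rw [← h1]; ring
    have h4 : (N + 1).choose t ≤ 3 * N.choose t := Nat.le_of_mul_le_mul_right h3 (by omega)
    calc (2 * t).choose t ≤ 3 ^ s * (N + 1).choose t := ih'
      _ ≤ 3 ^ s * (3 * N.choose t) := Nat.mul_le_mul_left _ h4
      _ = _ := by rw [pow_succ]; ring

open Classical in
theorem rob_count (s t : ℕ) (hst : s ≤ t) :
    (∑ T ∈ powersetCard (2 * t) (univ : Finset V), (if Rob G s T then 0 else 1)) *
      (2 * t - s).choose t ≤
    (∑ T' ∈ powersetCard t (univ : Finset V), (if Good G T' then 0 else 1)) *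
      (Fintype.card V - t).choose t := by
  have h1 : ∀ T ∈ powersetCard (2 * t) (univ : Finset V),
      (if Rob G s T then 0 else 1) * (2 * t - s).choose t ≤
      ∑ T' ∈ powersetCard t T, (if Good G T' then 0 else 1) := by
    intro T hT
    have hTc := (mem_powersetCard.mp hT).2
    by_cases hR : Rob G s T
    · rw [if_pos hR, zero_mul]
      exact Nat.zero_le _
    · rw [if_neg hR, one_mul]
      unfold Rob at hR
      push Not at hR
      obtain ⟨S', hS', hng⟩ := hR
      have h2 : powersetCard t (T \ S') ⊆ powersetCard t T := powersetCard_mono sdiff_subset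
      have h3 : ∑ T' ∈ powersetCard t (T \ S'), (1 : ℕ) ≤
          ∑ T' ∈ powersetCard t T, (if Good G T' then 0 else 1) := by
        refine le_trans (sum_le_sum fun T' hT' => ?_)
          (sum_le_sum_of_subset (f := fun T' => if Good G T' then 0 else 1) h2)
        rw [if_neg]
        intro hg
        exact hng (good_mono hg (mem_powersetCard.mp hT').1)
      rw [sum_const, card_powersetCard, smul_eq_mul, mul_one] at h3
      refine le_trans (Nat.choose_le_choose t ?_) h3
      have h4 := le_card_sdiff S' T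
      omega
  have h5 := sum_le_sum h1
  rw [← sum_mul] at h5
  refine h5.trans ?_
  -- exchange the order of summation
  have h6 : ∑ T ∈ powersetCard (2 * t) (univ : Finset V), ∑ T' ∈ powersetCard t T,
      (if Good G T' then 0 else 1) =
      ∑ T' ∈ powersetCard t (univ : Finset V),
        ∑ T ∈ (powersetCard (2 * t) (univ : Finset V)).filter (fun T => T' ⊆ T),
        (if Good G T' then 0 else 1) := by
    refine sum_comm' ?_
    intro T T'
    rw [mem_powersetCard, mem_powersetCard, mem_filter, mem_powersetCard, mem_powersetCard]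
    constructor
    · rintro ⟨⟨h1, h2⟩, h3, h4⟩
      exact ⟨⟨⟨h1, h2⟩, h3⟩, subset_univ _, h4⟩
    · rintro ⟨⟨⟨h1, h2⟩, h3⟩, -, h4⟩
      exact ⟨⟨h1, h2⟩, h3, h4⟩
  rw [h6, sum_mul]
  refine sum_le_sum fun T' hT' => ?_
  rw [sum_const, smul_eq_mul, mul_comm]
  refine Nat.mul_le_mul_left _ ?_
  have hT'c := (mem_powersetCard.mp hT').2
  have h7 : (powersetCard (2 * t) (univ : Finset V)).filter (fun T => T' ⊆ T) ⊆
      (powersetCard t T'ᶜ).image (fun U => U ∪ T') := by
    intro T hT
    rw [mem_filter, mem_powersetCard] at hT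
    rw [mem_image]
    refine ⟨T \ T', ?_, sdiff_union_of_subset hT.2⟩
    rw [mem_powersetCard]
    refine ⟨fun z hz => ?_, ?_⟩
    · rw [mem_compl]
      exact (mem_sdiff.mp hz).2
    · rw [card_sdiff_of_subset hT.2, hT.1.2, hT'c]
      omega
  refine (card_le_card h7).trans (card_image_le.trans ?_)
  rw [card_powersetCard, card_compl, hT'c]

open Classical in
/-- the probability of not being robust -/
theorem rob_le (s t : ℕ) (hst : 2 * s ≤ t) (ht : 2 * t ≤ Fintype.card V) :
    av (2 * t) (fun T : Finset V => if Rob G s T then (0 : ℝ) else 1) ≤ 3 ^ s * gb G t := by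
  have h1 := rob_count (G := G) s t (by omega)
  have h2 := choose3 t s hst
  have h3 := Nat.choose_mul (n := Fintype.card V) (k := 2 * t) (s := t) (by omega)
  have h4 : 2 * t - t = t := by omega
  rw [h4] at h3
  obtain ⟨A, hA⟩ : ∃ A, A = ∑ T ∈ powersetCard (2 * t) (univ : Finset V),
    (if Rob G s T then 0 else 1) := ⟨_, rfl⟩
  obtain ⟨B, hB⟩ : ∃ B, B = ∑ T' ∈ powersetCard t (univ : Finset V),
    (if Good G T' then 0 else 1) := ⟨_, rfl⟩
  rw [← hA, ← hB] at h1
  have hAr : ∑ T ∈ powersetCard (2 * t) (univ : Finset V), (if Rob G s T then (0 : ℝ) else 1) =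
      (A : ℝ) := by
    rw [hA]
    push_cast
    rfl
  have hBr : ∑ T ∈ powersetCard t (univ : Finset V), (if Good G T then (0 : ℝ) else 1) =
      (B : ℝ) := by
    rw [hB]
    push_cast
    rfl
  unfold gb av
  rw [hAr, hBr]
  have c1 : (0 : ℝ) < ((Fintype.card V).choose (2 * t) : ℝ) := choose_pos' ht
  have c2 : (0 : ℝ) < ((Fintype.card V).choose t : ℝ) := choose_pos' (by omega)
  have c3 : (0 : ℝ) < ((Fintype.card V - t).choose t : ℝ) := by
    exact_mod_cast Nat.choose_pos (by omega)
  have c4 : (0 : ℝ) < ((2 * t).choose t : ℝ) := by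
    exact_mod_cast Nat.choose_pos (by omega)
  rw [← mul_div_assoc, div_le_div_iff₀ c1 c2]
  have r1 : (A : ℝ) * ((2 * t - s).choose t : ℝ) ≤ B * ((Fintype.card V - t).choose t : ℝ) := by
    exact_mod_cast h1
  have r2 : ((2 * t).choose t : ℝ) ≤ 3 ^ s * ((2 * t - s).choose t : ℝ) := by
    exact_mod_cast h2
  have r3 : ((Fintype.card V).choose (2 * t) : ℝ) * ((2 * t).choose t : ℝ) =
      ((Fintype.card V).choose t : ℝ) * ((Fintype.card V - t).choose t : ℝ) := by
    exact_mod_cast h3
  have hA0 : (0 : ℝ) ≤ A := Nat.cast_nonneg _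
  have r4 : (A : ℝ) * ((2 * t).choose t : ℝ) ≤ 3 ^ s * (B * ((Fintype.card V - t).choose t : ℝ)) := by
    calc (A : ℝ) * ((2 * t).choose t : ℝ) ≤ A * (3 ^ s * ((2 * t - s).choose t : ℝ)) :=
          mul_le_mul_of_nonneg_left r2 hA0
      _ = 3 ^ s * (A * ((2 * t - s).choose t : ℝ)) := by ring
      _ ≤ _ := mul_le_mul_of_nonneg_left r1 (by positivity)
  have r5 : (A : ℝ) * ((Fintype.card V).choose t : ℝ) * (((Fintype.card V - t).choose t : ℝ)) ≤
      3 ^ s * B * ((Fintype.card V).choose (2 * t) : ℝ) * (((Fintype.card V - t).choose t : ℝ)) := by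
    calc (A : ℝ) * ((Fintype.card V).choose t : ℝ) * (((Fintype.card V - t).choose t : ℝ))
        = A * (((Fintype.card V).choose t : ℝ) * (((Fintype.card V - t).choose t : ℝ))) := by ring
      _ = (A * ((2 * t).choose t : ℝ)) * ((Fintype.card V).choose (2 * t) : ℝ) := by
          rw [← r3]
          ring
      _ ≤ (3 ^ s * (B * ((Fintype.card V - t).choose t : ℝ))) *
          ((Fintype.card V).choose (2 * t) : ℝ) := mul_le_mul_of_nonneg_right r4 c1.le
      _ = _ := by ring
  exact le_of_mul_le_mul_right r5 c3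

open Classical in
theorem compl_av (j : ℕ) (hj : j ≤ Fintype.card V) :
    av j (fun T : Finset V => if Good G Tᶜ then (0 : ℝ) else 1) = gb G (Fintype.card V - j) := by
  unfold gb av
  have h1 : ∑ T ∈ powersetCard j (univ : Finset V), (if Good G Tᶜ then (0 : ℝ) else 1) =
      ∑ T ∈ powersetCard (Fintype.card V - j) (univ : Finset V),
        (if Good G T then (0 : ℝ) else 1) := by
    refine sum_nbij' (fun T => Tᶜ) (fun T => Tᶜ) ?_ ?_ ?_ ?_ ?_
    · intro T hT
      rw [mem_powersetCard] at hT ⊢
      exact ⟨subset_univ _, by rw [card_compl, hT.2]⟩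
    · intro T hT
      rw [mem_powersetCard] at hT ⊢
      exact ⟨subset_univ _, by rw [card_compl, hT.2]; omega⟩
    · intro T _
      exact compl_compl T
    · intro T _
      exact compl_compl T
    · intro T _
      rfl
  rw [h1, Nat.choose_symm hj]

/-- existence of the partition -/
theorem exists_T (s t : ℕ) (hst : 2 * s ≤ t) (ht : 2 * t ≤ Fintype.card V)
    (h : 3 ^ s * gb G t + gb G (Fintype.card V - 2 * t) < 1) :
    ∃ T : Finset V, T.card = 2 * t ∧ Rob G s T ∧ Good G Tᶜ := by
  classical
  by_contra hcon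
  push Not at hcon
  have h1 : av (2 * t) (fun _ : Finset V => (1 : ℝ)) ≤
      av (2 * t) (fun T : Finset V => (if Rob G s T then (0 : ℝ) else 1) +
        (if Good G Tᶜ then (0 : ℝ) else 1)) := by
    refine av_mono _ _ _ fun T hT => ?_
    by_cases hR : Rob G s T
    · have := hcon T hT hR
      rw [if_pos hR, if_neg this]
      norm_num
    · rw [if_neg hR]
      have : (0 : ℝ) ≤ if Good G Tᶜ then 0 else 1 := by split_ifs <;> norm_num
      linarith
  rw [av_one ht, av_add, compl_av _ ht] at h1
  have h2 := rob_le (G := G) s t hst ht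
  linarith

end Pool.Agent.LPR
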